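import Pool.Agent.MP_57f271_lc.H18.Defs

namespace Pool.Agent.MP_57f271_lc.H27

open Pool.Agent.MP_57f271_lc.H18

/-- Alternation level of the result of an operation on entries of levels `a` and `b`.
Level `0`: independent of the coefficients.  Sums have the least odd level, products and
quotients the least even level, that is at least `max a b`; multiplying or dividing by an entry
of level `0` keeps the level. -/
def opLevel : Op → ℕ → ℕ → ℕ
  | .mul, a, b => if a = 0 ∨ b = 0 then max a b else max a b + max a b % 2
  | .div, a, b => if b = 0 then a else max a b + max a b % 2
  | _, a, b => if max a b = 0 then 0 else max a b + (max a b + 1) % 2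

/-- The effect of an instruction on the levels of the entries. -/
def stepLevel {Q : Type} : Instr Q → (ℤ → ℕ) → ℤ → ℕ
  | .arith o i j k _, l => Function.update l k (opLevel o (l i) (l j))
  | .scale _ i k _, l => Function.update l k (l i)
  | .const _ k _, l => Function.update l k 0
  | .shift left _, l => fun i => l (if left then i + 1 else i - 1)
  | _, l => l

/-- The levels of the entries after `t` steps on the system `S`: coefficients start at level `1`,
all other entries at level `0`. -/
noncomputable def level (M : Machine) (E : Encoding) (S : System) : ℕ → ℤ → ℕ
  | 0 => Function.extend (E.pos S.n S.k S.deg) (fun _ => 1) fun _ => 0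
  | t + 1 => stepLevel (M.instr (M.step^[t] (M.start, E.state S)).1) (level M E S t)

/-- The machine halts with the right answer on every system of size `s`. -/
def DecidesSize (M : Machine) (E : Encoding) (s : ℕ) : Prop :=
  ∀ S : System, S.size = s → ∃ t b, M.Outputs (E.state S) t b ∧ (b = true ↔ S.Feasible)

end Pool.Agent.MP_57f271_lc.H27
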