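import Mathlib

namespace Pool.Agent.MP_57f271_lc.H27

open Function

theorem exists_indep' (F : Subfield ℂ) (hF : Cardinal.mk F ≤ Cardinal.aleph0) (ι : Type)
    [Finite ι] : ∃ v : ι → ℂ, AlgebraicIndependent F v := by
  obtain ⟨B, hB⟩ := exists_isTranscendenceBasis F ℂ
  have h := IsAlgClosed.cardinal_eq_cardinal_transcendence_basis_of_aleph0_lt' _ hB hF
    (by rw [Cardinal.mk_complex]; exact Cardinal.aleph0_lt_continuum)
  have hinf : Infinite B := by
    rw [Cardinal.infinite_iff, ← h, Cardinal.mk_complex]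
    exact Cardinal.aleph0_le_continuum
  obtain ⟨n, ⟨e0⟩⟩ := Finite.exists_equiv_fin ι
  let e : ι ↪ B := e0.toEmbedding.trans (Fin.valEmbedding.trans (Infinite.natEmbedding B))
  exact ⟨_, hB.1.comp e e.injective⟩

/-- the local ring of a generic point of a hypersurface, with its deformations -/
structure Gen (cs : Set ℂ) (ι V : Type) [CommRing V] where
  κ : ℂ → V
  y : ι → V
  η : V
  φ1 : V →+* ℂ
  φ2 : V →+* ℂ
  κ1 : ∀ c ∈ cs, φ1 (κ c) = c
  κ2 : ∀ c ∈ cs, φ2 (κ c) = c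
  inj : Injective φ1
  η1 : φ1 η ≠ 0
  η2 : φ2 η = 0
  indep : AlgebraicIndependent ℤ fun i => φ2 (y i)
  fac : ∀ x, x ≠ 0 → ¬ IsUnit x → ∃ e u, IsUnit u ∧ x = η ^ (e + 1) * u
  deform : ∀ (σ : Type) (δ : ι → MvPowerSeries σ V) (δ' : MvPowerSeries σ V),
    (∀ i, MvPowerSeries.constantCoeff (δ i) = y i) → MvPowerSeries.constantCoeff δ' = η →
    ∃ θ : V →+* MvPowerSeries σ V, (∀ c, θ (κ c) = MvPowerSeries.C (κ c)) ∧
      (∀ i, θ (y i) = δ i) ∧ θ η = δ' ∧ ∀ x, MvPowerSeries.constantCoeff (θ x) = x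

/-- the parameter ring -/
abbrev PP (ι F : Type) [Field F] : Type := Polynomial (MvPolynomial ι F)

theorem exists_gen' (cs : Set ℂ) (ι F : Type) [Field F] [Algebra F ℂ] (v : Option ι → ℂ)
    (hv : AlgebraicIndependent F v) (κ0 : ℂ → F) (hκ : ∀ c ∈ cs, algebraMap F ℂ (κ0 c) = c) :
    ∃ (V : Type) (_ : CommRing V), Nonempty (Gen cs ι V) := by
  classical
  have : CharZero F := RingHom.charZero (algebraMap F ℂ)
  have hv' := hv.comp some (Option.some_injective ι)
  let ψ1 : PP ι F →+* ℂ :=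
    (MvPolynomial.aeval v : MvPolynomial (Option ι) F →ₐ[F] ℂ).toRingHom.comp
      (MvPolynomial.optionEquivLeft F ι).symm.toRingEquiv.toRingHom
  let ψ2 : PP ι F →+* ℂ :=
    (MvPolynomial.aeval (v ∘ some) : MvPolynomial ι F →ₐ[F] ℂ).toRingHom.comp
      Polynomial.constantCoeff
  have i1 : Injective ψ1 := Injective.comp (g := MvPolynomial.aeval v) hv
    (MvPolynomial.optionEquivLeft F ι).symm.injective
  obtain ⟨M, hM0⟩ : ∃ M : Submonoid (PP ι F), ∀ b, b ∈ M ↔ ψ2 b ≠ 0 :=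
    ⟨(nonZeroDivisors ℂ).comap ψ2, fun b => mem_nonZeroDivisors_iff_ne_zero⟩
  have hM : ∀ b : PP ι F, b ∈ M ↔ b.coeff 0 ≠ 0 := fun b => (hM0 b).trans
    (map_ne_zero_iff (MvPolynomial.aeval (v ∘ some) : MvPolynomial ι F →ₐ[F] ℂ) hv')
  obtain ⟨V, _, _, _⟩ : ∃ (V : Type) (_ : CommRing V) (_ : Algebra (PP ι F) V),
    IsLocalization M V := ⟨Localization M, inferInstance, inferInstance, inferInstance⟩
  have u1 : ∀ b : M, IsUnit (ψ1 b) := fun b => Ne.isUnit fun h =>
    (hM b).1 b.2 (by rw [i1 (h.trans (map_zero ψ1).symm)]; simp)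
  have u2 : ∀ b : M, IsUnit (ψ2 b) := fun b => Ne.isUnit ((hM0 b).1 b.2)
  refine ⟨V, inferInstance, ⟨⟨fun c => algebraMap (PP ι F) V (Polynomial.C (MvPolynomial.C (κ0 c))),
    fun i => algebraMap (PP ι F) V (Polynomial.C (MvPolynomial.X i)), algebraMap (PP ι F) V Polynomial.X,
    IsLocalization.lift u1, IsLocalization.lift u2, fun c hc => ?_, fun c hc => ?_, ?_, ?_, ?_, ?_,
    fun x h0 hx => ?_, fun σ δ δ' h1 h2 => ?_⟩⟩⟩
  · simpa [ψ1] using hκ c hc
  · simpa [ψ2] using hκ c hc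
  · refine (injective_iff_map_eq_zero _).2 fun x hx => ?_
    obtain ⟨⟨a, b⟩, rfl⟩ := IsLocalization.mk'_surjective M x
    rw [IsLocalization.lift_mk'_spec, mul_zero] at hx
    simp [i1 (hx.trans (map_zero ψ1).symm)]
  · rw [IsLocalization.lift_eq]
    exact (map_ne_zero_iff _ i1).2 Polynomial.X_ne_zero
  · simp [ψ2]
  · simpa [ψ2, comp_def] using hv'.restrictScalars (R := ℤ) (RingHom.injective_int _)
  · obtain ⟨⟨a, b⟩, rfl⟩ := IsLocalization.mk'_surjective M x
    have ha : a ≠ 0 := by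
      rintro rfl
      simp at h0
    obtain ⟨q, h1, h2⟩ := Polynomial.exists_eq_pow_rootMultiplicity_mul_and_not_dvd a ha 0
    rw [map_zero, sub_zero] at h1 h2
    have h3 : IsUnit (IsLocalization.mk' V q b) :=
      IsUnit.of_mul_eq_one _ (IsLocalization.mk'_mul_mk'_eq_one' q b
        ((hM q).2 fun h => h2 (Polynomial.X_dvd_iff.2 h)))
    have h4 : IsLocalization.mk' V a b = algebraMap (PP ι F) V Polynomial.X ^ a.rootMultiplicity 0 *
        IsLocalization.mk' V q b := by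
      rw [← map_pow, IsLocalization.mul_mk'_eq_mk'_of_mul, ← h1]
    rcases he : a.rootMultiplicity 0 with _ | e
    · rw [he, pow_zero, one_mul] at h4
      exact absurd (h4 ▸ h3 : IsUnit (IsLocalization.mk' V a b)) hx
    · exact ⟨e, _, h3, he ▸ h4⟩
  · let θ0 : PP ι F →+* MvPowerSeries σ V := Polynomial.eval₂RingHom (MvPolynomial.eval₂Hom
      (MvPowerSeries.C.comp ((algebraMap (PP ι F) V).comp (Polynomial.C.comp MvPolynomial.C))) δ) δ'
    have h3 : MvPowerSeries.constantCoeff.comp θ0 = algebraMap (PP ι F) V :=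
      Polynomial.ringHom_ext' (MvPolynomial.ringHom_ext (fun r => by simp [θ0])
        fun i => by simp [θ0, h1]) (by simp [θ0, h2])
    have u0 : ∀ b : M, IsUnit (θ0 b) := fun b => MvPowerSeries.isUnit_iff_constantCoeff.2
      (RingHom.congr_fun h3 b.1 ▸ IsLocalization.map_units V b :
        IsUnit (MvPowerSeries.constantCoeff.comp θ0 b.1))
    refine ⟨IsLocalization.lift u0, fun c => by simp [θ0], fun i => by simp [θ0], by simp [θ0],
      fun x => ?_⟩
    have h4 : MvPowerSeries.constantCoeff.comp (IsLocalization.lift u0) = RingHom.id V :=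
      IsLocalization.ringHom_ext M (by
        rw [RingHom.comp_assoc, IsLocalization.lift_comp, h3, RingHom.id_comp])
    exact DFunLike.congr_fun h4 x

theorem exists_gen (cs : Set ℂ) (hcs : cs.Finite) (ι : Type) [Finite ι] :
    ∃ (V : Type) (_ : CommRing V), Nonempty (Gen cs ι V) := by
  classical
  obtain ⟨v, hv⟩ := exists_indep' (Subfield.closure cs)
    ((Subfield.cardinalMk_closure_le_max cs).trans
      (max_le (Cardinal.lt_aleph0_iff_set_finite.2 hcs).le le_rfl)) (Option ι)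
  exact exists_gen' cs ι _ v hv (fun c => if h : c ∈ Subfield.closure cs then ⟨c, h⟩ else 0)
    fun c hc => by rw [dif_pos (show c ∈ Subfield.closure cs from Subfield.subset_closure hc)]; rfl

end Pool.Agent.MP_57f271_lc.H27
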