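import Pool.Agent.MP_57f271_lc.H27.Sys

namespace Pool.Agent.MP_57f271_lc.H27

open Pool.Agent.MP_57f271_lc.H18 Finset Function

theorem thr_mono {φ : ℕ} (hφ : 0 < φ) : Monotone (thr φ) :=
  monotone_nat_of_le_succ fun l => (thr_le hφ l).2

/-- the lower bound with explicit parameters -/
theorem core_bound (M : Machine) (E : Encoding) {φ Δ d k a n : ℕ} (hφ : 0 < φ)
    (hd : d = thr φ Δ) (hk : 6 * d ^ 2 ≤ k) (ha : a = Nat.sqrt (2 * k ^ 2)) (hn : n = d * 2 ^ a)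
    (hM : DecidesSize M E (Nat.card (Slot n (n + 1) fun _ => 1))) :
    ∃ S : System, S.size = Nat.card (Slot n (n + 1) fun _ => 1) ∧
      ∀ t r b, M.Outputs (E.state S) t r → 2 * t ≤ 2 ^ b → (∀ i ≤ t, ∀ j, level M E S i j ≤ Δ) →
        k * φ ≤ 8 * (Δ * (b + 2 * d ^ 2) + k) := by
  classical
  have hd2 : 2 ≤ d := hd ▸ (thr_le hφ Δ).1
  have hn0 : 0 < n := by rw [hn]; positivity
  obtain ⟨V, _, ⟨G⟩⟩ := exists_gen (Set.range fun q => (M.instr q).cst) (Set.finite_range _)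
    (Fin (n + 1) × Fin n ⊕ Fin n)
  obtain ⟨T⟩ := exists_abp a k d V (ha ▸ (le_sqrt_two k).1) hd2
  obtain ⟨Θ, h1, h2, h3⟩ := exists_theta G (T.reindex (Fintype.equivFinOfCardEq
    (show Fintype.card (Fin d × (Fin a → Bool)) = n by simp [hn])).symm)
  have s1 := sys_size G hn0 G.φ1 (y1_ne G)
  refine ⟨sys G G.φ1, s1, fun t r b ht hb hl => ?_⟩
  let c : Fin M.m × (ℤ → V) := (M.start, x0 G E)
  have r1 := map_run M G.φ1 (fun q => G.κ1 _ ⟨q, rfl⟩) c
  have r2 := map_run M G.φ2 (fun q => G.κ2 _ ⟨q, rfl⟩) c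
  simp only [c, ← sys_state G hn0 G.φ1 (y1_ne G)] at r1
  simp only [c, ← sys_state G hn0 G.φ2 (y2_ne G)] at r2
  have hex : ∃ j, j < t ∧ ¬ Ok M ((stepA M G.κ)^[j] c) := by
    by_contra h
    have h : ∀ i < t, Ok M ((stepA M G.κ)^[i] c) := fun i hi => not_not.1 fun h' => h ⟨i, hi, h'⟩
    have ht2 : M.Outputs (E.state (sys G G.φ2)) t r := by
      unfold Machine.Outputs at ht ⊢
      rw [r1 t h] at ht
      rw [r2 t h]
      exact ht
    obtain ⟨t1, b1, o1, f1⟩ := hM (sys G G.φ1) s1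
    obtain ⟨t2, b2, o2, f2⟩ := hM (sys G G.φ2) (sys_size G hn0 G.φ2 (y2_ne G))
    exact infeas1 G (f1.1 ((M.outputs_unique o1 ht).trans
      ((M.outputs_unique ht2 o2).trans (f2.2 (feas2 G)))))
  obtain ⟨hj1, hj2⟩ := Nat.find_spec hex
  have hj3 : ∀ i < Nat.find hex, Ok M ((stepA M G.κ)^[i] c) := fun i hi =>
    not_not.1 fun h => Nat.find_min hex hi ⟨hi.trans hj1, h⟩
  generalize Nat.find hex = j at hj1 hj2 hj3
  obtain ⟨O, o1, o2, o3⟩ := run_cl M Θ h1 c (level M E (sys G G.φ1)) j hj3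
    (fun i hi => by rw [level, r1 i fun i' hi' => hj3 i' (hi'.trans hi)]) fun O p => by
      rw [sys_level G hn0 G.φ1 (y1_ne G)]
      by_cases hp : ∃ s, E.pos n (n + 1) (fun _ => 1) s = p
      · obtain ⟨s, rfl⟩ := hp
        simp only [c, x0, (E.inj _ _ _).extend_apply]
        exact h2 _ _
      · simp only [c, x0, extend_apply' _ _ _ hp]
        exact ⟨_, (map_natCast Θ _).trans (map_natCast _ _).symm⟩
  rw [Ok, not_or] at hj2
  obtain ⟨p, hp⟩ := (critv_eq _ _).resolve_left hj2.1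
  rw [hp] at hj2
  exact par_final ha hk (h3 _ hj2.1 hj2.2 _ (good_cl (P := par a k d ha hk) hφ
    (o1.trans (by omega)) Nat.one_le_two_pow o2 Δ _ (hl j hj1.le p) _ (o3 p) univ (by simp [hd])))

theorem thr_eq (φ l : ℕ) : φ * thr φ l = (2 * φ) ^ 4 ^ l := by
  induction l with
  | zero => simp [thr, mul_comm]
  | succ l ih =>
    rw [pow_succ, pow_mul, ← ih, thr]
    ring

theorem main (C N : ℕ) : ∃ s, N ≤ s ∧ ∀ (M : Machine) (E : Encoding), DecidesSize M E s →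
    ∃ S : System, S.size = s ∧ ∀ t r, M.Outputs (E.state S) t r → s ^ C < t ∨
      ∃ i ≤ t, ∃ j, Nat.log 2 (Nat.log 2 (Nat.log 2 s)) < 3 * level M E S i j := by
  obtain ⟨Δ, hΔ⟩ : ∃ Δ, Δ = C + N + 4 := ⟨_, rfl⟩
  obtain ⟨φ, hφ⟩ : ∃ φ, φ = 32 * Δ ^ 2 + 16 := ⟨_, rfl⟩
  obtain ⟨d, hd⟩ : ∃ d, d = thr φ Δ := ⟨_, rfl⟩
  obtain ⟨k, hk⟩ : ∃ k, k = 10 * d ^ 3 := ⟨_, rfl⟩
  obtain ⟨a, ha⟩ : ∃ a, a = Nat.sqrt (2 * k ^ 2) := ⟨_, rfl⟩
  have hφ0 : 0 < φ := by omega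
  have h1 : φ ≤ d := by
    rw [hd]
    refine le_trans ?_ (thr_mono hφ0 (show 1 ≤ Δ by omega))
    exact Nat.le_mul_of_pos_right _ (by simp only [thr]; positivity)
  have h2 : 100 * Δ ≤ d := by nlinarith
  have hk2 : 6 * d ^ 2 ≤ k := by nlinarith [Nat.pow_le_pow_right (show 0 < d by omega) (show 2 ≤ 3 by omega)]
  obtain ⟨a1, a2⟩ := le_sqrt_two k
  rw [← ha] at a1 a2
  obtain ⟨s1, s2⟩ := card_slot (d * 2 ^ a)
  have s0 := fun M E => core_bound M E hφ0 hd hk2 ha rfl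
  generalize Nat.card (Slot (d * 2 ^ a) (d * 2 ^ a + 1) fun _ => 1) = s at s0 s1 s2
  have h3 : s ≤ 2 ^ (2 * d + 4 * k) := by
    refine s2.trans ?_
    rw [show 2 * d + 4 * k = (d + 2 * k) * 2 by ring, pow_mul, pow_add]
    refine Nat.pow_le_pow_left ?_ 2
    have h4 : d + 1 ≤ 2 ^ d := Nat.lt_two_pow_self
    have h5 : 2 ^ a ≤ 2 ^ (2 * k) := Nat.pow_le_pow_right two_pos a2
    have h6 : 1 ≤ 2 ^ a := Nat.one_le_two_pow
    nlinarith [Nat.mul_le_mul h4 h5]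
  refine ⟨s, le_trans ?_ s1, fun M E hM => ?_⟩
  · nlinarith [Nat.one_le_two_pow (n := a)]
  obtain ⟨S, s4, s3⟩ := s0 M E hM
  refine ⟨S, s4, fun t r ht => ?_⟩
  by_contra h
  rw [not_or, not_lt] at h
  have h4 : Nat.log 2 (Nat.log 2 (Nat.log 2 s)) < 3 * Δ + 3 := by
    have h5 : 2 * φ ≤ 2 ^ 2 ^ Δ := by
      have h6 : ∀ m, 4 ≤ m → 2 * m + 7 ≤ 2 ^ m := fun m hm => by
        induction m, hm using Nat.le_induction with
        | base => norm_num
        | succ m _ ih => rw [pow_succ]; omega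
      have h7 : Δ ^ 2 ≤ (2 ^ Δ) ^ 2 := Nat.pow_le_pow_left Nat.lt_two_pow_self.le 2
      refine le_trans ?_ (Nat.pow_le_pow_right two_pos (h6 Δ (by omega)))
      rw [pow_add, mul_comm 2 Δ, pow_mul]
      nlinarith
    have h6 : d ≤ 2 ^ 2 ^ (3 * Δ) := by
      refine (Nat.le_mul_of_pos_left _ hφ0).trans ?_
      rw [hd, thr_eq]
      refine (Nat.pow_le_pow_left h5 _).trans (le_of_eq ?_)
      rw [← pow_mul, show 4 = 2 ^ 2 from rfl, ← pow_mul, ← pow_add]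
      ring_nf
    have h7 : 2 * d + 4 * k < 2 ^ 2 ^ (3 * Δ + 3) := by
      calc 2 * d + 4 * k < d ^ 4 := by
            have h8 : d ≤ d ^ 3 := Nat.le_self_pow (by omega) d
            have h9 : 100 * d ^ 3 ≤ d * d ^ 3 := Nat.mul_le_mul_right _ (by omega)
            rw [pow_succ' d 3]
            omega
        _ ≤ (2 ^ 2 ^ (3 * Δ)) ^ 4 := Nat.pow_le_pow_left h6 4
        _ ≤ _ := by
            rw [← pow_mul]
            exact Nat.pow_le_pow_right two_pos (by rw [pow_add]; omega)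
    exact Nat.log_lt_of_lt_pow' (by omega) (Nat.log_lt_of_lt_pow' (by positivity)
      (((Nat.log_mono_right h3).trans_eq (Nat.log_pow one_lt_two _)).trans_lt h7))
  have h5 := s3 t r (1 + Δ * (2 * d + 4 * k)) ht (by
    rw [pow_add, pow_one, mul_comm Δ, pow_mul]
    exact Nat.mul_le_mul_left _ (h.1.trans ((Nat.pow_le_pow_left h3 _).trans
      (Nat.pow_le_pow_right (by positivity) (by omega))))) fun i hi j => by
      by_contra h6
      exact h.2 ⟨i, hi, j, by omega⟩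
  have h6 : Δ ≤ d := by omega
  have h7 : Δ * (1 + Δ * (2 * d) + 2 * d ^ 2) ≤ d * (d ^ 2 + d * (2 * d) + 2 * d ^ 2) := by
    gcongr
    exact Nat.one_le_pow _ _ (by omega)
  have h8 : 0 < d ^ 3 := by have : 0 < d := by omega
                            positivity
  rw [hφ] at h5
  nlinarith

end Pool.Agent.MP_57f271_lc.H27
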