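import Pool.Agent.MP_57f271_lc.H27.Word

namespace Pool.Agent.MP_57f271_lc.H27

open Finset MvPowerSeries Real

theorem two_sq_ne (p q : ℕ) (h : 0 < p + q) : 2 * p ^ 2 ≠ q ^ 2 := by
  intro h1
  have hp : p ≠ 0 := by
    rintro rfl
    have : q = 0 := by simpa using h1.symm
    omega
  refine irrational_sqrt_two ⟨(q : ℚ) / p, ?_⟩
  have h2 : (2 : ℝ) * p ^ 2 = q ^ 2 := by exact_mod_cast h1
  have h3 : (p : ℝ) ≠ 0 := by exact_mod_cast hp
  push_cast
  symm
  rw [sqrt_eq_iff_eq_sq two_pos.le (by positivity), div_pow, ← h2]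
  field_simp

theorem imb {a k p q : ℤ} (ha : 0 ≤ a) (hp : 0 ≤ p) (hq : 0 ≤ q) (h1 : a ^ 2 ≤ 2 * k ^ 2)
    (h2 : 2 * k ^ 2 < (a + 1) ^ 2) (h3 : 6 * (p + q) ^ 2 ≤ k) (h4 : 2 * p ^ 2 ≠ q ^ 2)
    (h5 : 0 < p + q) : k ≤ 4 * (p + q) * |a * p - k * q| := by
  have hk : 0 < k := by nlinarith
  have h6 : 2 * a ≤ 3 * k := by nlinarith
  have h7 : p ^ 2 * (2 * k ^ 2 - a ^ 2) ≤ (p + q) ^ 2 * (3 * k) :=
    mul_le_mul (by nlinarith) (by nlinarith) (by omega) (by positivity)
  have h8 : 0 ≤ p ^ 2 * (2 * k ^ 2 - a ^ 2) := mul_nonneg (by positivity) (by omega)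
  have h9 : a * p + k * q ≤ 2 * k * (p + q) := by nlinarith
  have h10 : k ^ 2 - p ^ 2 * (2 * k ^ 2 - a ^ 2) ≤ |a * p - k * q| * (a * p + k * q) := by
    have h0 : 0 ≤ a * p + k * q := by positivity
    rcases lt_or_gt_of_ne h4 with h | h
    · have := mul_le_mul_of_nonneg_right (neg_le_abs (a * p - k * q)) h0
      nlinarith [mul_le_mul_of_nonneg_left (show 2 * p ^ 2 + 1 ≤ q ^ 2 by omega) (sq_nonneg k)]
    · have := mul_le_mul_of_nonneg_right (le_abs_self (a * p - k * q)) h0
      nlinarith [mul_le_mul_of_nonneg_left (show q ^ 2 + 1 ≤ 2 * p ^ 2 by omega) (sq_nonneg k)]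
  have h11 := mul_le_mul_of_nonneg_left h9 (abs_nonneg (a * p - k * q))
  have h12 := mul_le_mul_of_nonneg_right h3 hk.le
  refine le_of_mul_le_mul_right ?_ hk
  nlinarith

/-- the rank measure for the word -/
noncomputable def par (a k d : ℕ) (ha : a = Nat.sqrt (2 * k ^ 2)) (hk : 6 * d ^ 2 ≤ k) :
    Par (BX a k d) where
  pos i := ps a k i
  ρ i := exp (log 2 / 2 * len a k i)
  κ := log 2 / 8 * k
  ρ_pos _ := exp_pos _
  κ_nonneg := by have := log_pos one_lt_two; positivity
  triv T f := by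
    set p := (T.filter fun i : Fin d => ps a k i).card with hp
    set q := (T.filter fun i : Fin d => ¬ ps a k i).card with hq
    have hpq : p + q = T.card := card_filter_add_card_filter_not _
    have hl := log_pos one_lt_two
    have e : ∀ n : ℕ, (Fintype.card (Fin n → Bool) : ℝ) = exp (log 2 * n) := fun n => by
      rw [mul_comm, exp_nat_mul, exp_log two_pos]
      simp
    have h1 : Rk (fun i : Fin d => ps a k i) (exp (log 2 * (a * p))) (comp T f) := by
      refine (Rk.triv (comp_dep T f)).mono (le_of_eq ?_)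
      rw [prod_congr rfl fun i hi => (e _).trans (by rw [len, if_pos (mem_filter.1 hi).2]),
        prod_const, ← exp_nat_mul]
      change exp (p * _) = _
      ring_nf
    have h2 : Rk (fun i : Fin d => ps a k i) (exp (log 2 * (k * q))) (comp T f) := by
      refine (Rk.triv (comp_dep T f)).symm.mono (le_of_eq ?_)
      rw [prod_congr rfl fun i hi => (e _).trans (by rw [len, if_neg (mem_filter.1 hi).2]),
        prod_const, ← exp_nat_mul]
      change exp (q * _) = _
      ring_nf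
    have h3 : (∏ i ∈ T, exp (log 2 / 2 * len a k i)) = exp (log 2 / 2 * (a * p + k * q)) := by
      rw [← exp_sum, ← mul_sum]
      simp only [len, Nat.cast_ite, sum_ite, sum_const, nsmul_eq_mul, ← hp, ← hq]
      ring_nf
    rw [h3, ← exp_add]
    have h4 : (k : ℝ) / T.card ≤ 4 * |(a : ℝ) * p - k * q| := by
      rcases Nat.eq_zero_or_pos T.card with h | h
      · rw [h, Nat.cast_zero, div_zero]
        positivity
      · have h5 : T.card ≤ d := by simpa using card_le_univ T
        have h6 := imb (a := a) (k := k) (p := p) (q := q) (by positivity) (by positivity)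
          (by positivity) (by exact_mod_cast ha ▸ Nat.sqrt_le' _)
          (by exact_mod_cast ha ▸ Nat.lt_succ_sqrt' _)
          (by exact_mod_cast (Nat.mul_le_mul_left 6 (Nat.pow_le_pow_left (hpq ▸ h5) 2)).trans hk)
          (by exact_mod_cast two_sq_ne p q (by omega)) (by exact_mod_cast hpq ▸ h)
        have h7 : (k : ℝ) ≤ 4 * (p + q) * |(a : ℝ) * p - k * q| := by exact_mod_cast h6
        rw [div_le_iff₀ (by exact_mod_cast h), ← hpq]
        push_cast
        linarith
    have h5 : -(log 2 / 8 * k) / T.card = -(log 2 / 8) * (k / T.card) := by ring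
    rw [h5]
    rcases le_total ((a : ℝ) * p) (k * q) with h | h
    · rw [abs_of_nonpos (by linarith)] at h4
      refine h1.mono (exp_le_exp.2 ?_)
      nlinarith
    · rw [abs_of_nonneg (by linarith)] at h4
      refine h2.mono (exp_le_exp.2 ?_)
      nlinarith

theorem le_sqrt_two (k : ℕ) : k ≤ Nat.sqrt (2 * k ^ 2) ∧ Nat.sqrt (2 * k ^ 2) ≤ 2 * k :=
  ⟨Nat.le_sqrt'.2 (by omega), by nlinarith [Nat.sqrt_le' (2 * k ^ 2)]⟩

/-- the numerical consequence of a good bound for a full rank polynomial -/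
theorem par_final {a k d φ b l : ℕ} (ha : a = Nat.sqrt (2 * k ^ 2)) (hk : 6 * d ^ 2 ≤ k)
    (h : (Fintype.card (Fin (lo a k d) → Bool) : ℝ) ≤
      ((2 ^ b : ℕ) * 2 ^ (2 * Fintype.card (Fin d) ^ 2)) ^ l * exp (-(par a k d ha hk).κ * φ) *
        ∏ i, (par a k d ha hk).ρ i) : k * φ ≤ 8 * (l * (b + 2 * d ^ 2) + k) := by
  have hl := log_pos one_lt_two
  have e : ∀ n : ℕ, (2 : ℝ) ^ n = exp (log 2 * n) := fun n => by
    rw [mul_comm, exp_nat_mul, exp_log two_pos]
  obtain ⟨h1, h2⟩ := le_sqrt_two k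
  simp only [par] at h
  rw [← ha] at h1 h2
  obtain ⟨h3, h4, h5⟩ := sum_len a k h1 d
  have h6 : ∑ i : Fin d, len a k i ≤ 2 * lo a k d + 2 * k := by
    rw [Fin.sum_univ_eq_sum_range (len a k), h3, lo]
    omega
  have h7 : ∑ i : Fin d, (len a k i : ℝ) ≤ 2 * lo a k d + 2 * k := by exact_mod_cast h6
  rw [← exp_sum, ← mul_sum, Fintype.card_fun, Fintype.card_bool, Fintype.card_fin,
    Fintype.card_fin] at h
  push_cast at h
  rw [← pow_add, ← pow_mul, e, e, ← exp_add, ← exp_add, exp_le_exp] at h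
  push_cast at h
  have : (k : ℝ) * φ ≤ 8 * (l * (b + 2 * d ^ 2) + k) := by
    refine le_of_mul_le_mul_left ?_ hl
    nlinarith
  exact_mod_cast this

end Pool.Agent.MP_57f271_lc.H27
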