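import Mathlib

namespace Pool.Agent.MP_57f271_lc.H27

open Finset

variable {K : Type} {D : Type} {X : D → Type}

/-- `f` depends only on the coordinates in `P` -/
def Dep (P : D → Prop) (f : (∀ i, X i) → K) : Prop :=
  ∀ ω ω', (∀ i, P i → ω i = ω' i) → f ω = f ω'

section Rank

variable [Field K] {pos : D → Prop}

/-- rank at most `x` for the splitting of the coordinates given by `pos` -/
def Rk (pos : D → Prop) (x : ℝ) (f : (∀ i, X i) → K) : Prop :=
  ∃ (ι : Type) (_ : Fintype ι) (a b : ι → (∀ i, X i) → K), (Fintype.card ι : ℝ) ≤ x ∧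
    (∀ j, Dep pos (a j)) ∧ (∀ j, Dep (fun i => ¬ pos i) (b j)) ∧ ∀ ω, f ω = ∑ j, a j ω * b j ω

theorem Rk.mono {x y : ℝ} {f : (∀ i, X i) → K} (h : Rk pos x f) (hxy : x ≤ y) : Rk pos y f := by
  obtain ⟨ι, _, a, b, h1, h2⟩ := h
  exact ⟨ι, _, a, b, h1.trans hxy, h2⟩

theorem Rk.congr {x : ℝ} {f g : (∀ i, X i) → K} (h : Rk pos x f) (hfg : ∀ ω, g ω = f ω) :
    Rk pos x g := by
  rwa [show g = f from funext hfg]

theorem Rk.zero {x : ℝ} (hx : 0 ≤ x) : Rk pos x (fun _ : ∀ i, X i => (0 : K)) :=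
  ⟨Empty, inferInstance, Empty.elim, Empty.elim, by simpa using hx, fun j => j.elim,
    fun j => j.elim, by simp⟩

theorem Rk.add {x y : ℝ} {f g : (∀ i, X i) → K} (hf : Rk pos x f) (hg : Rk pos y g) :
    Rk pos (x + y) (fun ω => f ω + g ω) := by
  obtain ⟨ι, _, a, b, h1, h2, h3, h4⟩ := hf
  obtain ⟨ι', _, a', b', h1', h2', h3', h4'⟩ := hg
  refine ⟨ι ⊕ ι', inferInstance, Sum.elim a a', Sum.elim b b', ?_, ?_, ?_, fun ω => ?_⟩
  · rw [Fintype.card_sum, Nat.cast_add]; exact add_le_add h1 h1'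
  · rintro (j | j); exacts [h2 j, h2' j]
  · rintro (j | j); exacts [h3 j, h3' j]
  · simp [h4, h4']

theorem Rk.mul {x y : ℝ} {f g : (∀ i, X i) → K} (hf : Rk pos x f) (hg : Rk pos y g) :
    Rk pos (x * y) (fun ω => f ω * g ω) := by
  obtain ⟨ι, _, a, b, h1, h2, h3, h4⟩ := hf
  obtain ⟨ι', _, a', b', h1', h2', h3', h4'⟩ := hg
  refine ⟨ι × ι', inferInstance, fun j ω => a j.1 ω * a' j.2 ω, fun j ω => b j.1 ω * b' j.2 ω,
    ?_, fun j ω ω' h => ?_, fun j ω ω' h => ?_, fun ω => ?_⟩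
  · rw [Fintype.card_prod, Nat.cast_mul]
    exact mul_le_mul h1 h1' (Nat.cast_nonneg _) ((Nat.cast_nonneg _).trans h1)
  · simp only [h2 j.1 ω ω' h, h2' j.2 ω ω' h]
  · simp only [h3 j.1 ω ω' h, h3' j.2 ω ω' h]
  · simp only [h4, h4', Fintype.sum_prod_type, sum_mul_sum]
    exact sum_congr rfl fun _ _ => sum_congr rfl fun _ _ => by ring

theorem Rk.smul {x : ℝ} {f : (∀ i, X i) → K} (hf : Rk pos x f) (c : K) :
    Rk pos x (fun ω => c * f ω) := by
  obtain ⟨ι, _, a, b, h1, h2, h3, h4⟩ := hf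
  refine ⟨ι, inferInstance, fun j ω => c * a j ω, b, h1, fun j ω ω' h => ?_, h3, fun ω => ?_⟩
  · simp only [h2 j ω ω' h]
  · simp only [h4, mul_sum, mul_assoc]

theorem Rk.sum {α : Type} {x : ℝ} (s : Finset α) {f : α → (∀ i, X i) → K}
    (hf : ∀ a ∈ s, Rk pos x (f a)) : Rk pos (s.card * x) (fun ω => ∑ a ∈ s, f a ω) := by
  classical
  induction s using Finset.induction_on with
  | empty => simpa using Rk.zero le_rfl
  | insert a s ha ih =>
    have := (hf a (mem_insert_self _ _)).add (ih fun b hb => hf b (mem_insert_of_mem hb))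
    refine (this.mono (le_of_eq ?_)).congr fun ω => sum_insert ha
    rw [card_insert_of_notMem ha]; push_cast; ring

theorem Rk.symm {x : ℝ} {f : (∀ i, X i) → K} (hf : Rk (fun i => ¬ pos i) x f) : Rk pos x f := by
  obtain ⟨ι, _, a, b, h1, h2, h3, h4⟩ := hf
  exact ⟨ι, inferInstance, b, a, h1, fun j ω ω' h => h3 j ω ω' fun i hi => h i (not_not.1 hi), h2,
    fun ω => by simp only [h4, mul_comm]⟩

theorem Rk.triv [∀ i, Fintype (X i)] [DecidablePred pos] {f : (∀ i, X i) → K} {S : Finset D}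
    (hf : Dep (· ∈ S) f) : Rk pos (∏ i ∈ S.filter pos, (Fintype.card (X i) : ℝ)) f := by
  classical
  refine ⟨∀ i : S.filter pos, X i, inferInstance, 
    fun j ω => if (fun i : S.filter pos => ω i.1) = j then 1 else 0,
    fun j ω => f fun i => if h : i ∈ S.filter pos then j ⟨i, h⟩ else ω i, ?_, fun j ω ω' h => ?_,
    fun j ω ω' h => hf _ _ fun i hi => ?_, fun ω => ?_⟩
  · rw [Fintype.card_pi, Nat.cast_prod, prod_coe_sort (S.filter pos)
      fun i => (Fintype.card (X i) : ℝ)]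
  · have : (fun i : S.filter pos => ω i.1) = fun i : S.filter pos => ω' i.1 :=
      funext fun i => h _ (mem_filter.1 i.2).2
    simp only [this]
  · split_ifs with h1
    · rfl
    · exact h i fun h2 => h1 (mem_filter.2 ⟨hi, h2⟩)
  · simp only [ite_mul, one_mul, zero_mul, sum_ite_eq, mem_univ, if_true]
    congr 1
    funext i
    split_ifs <;> rfl

theorem Rk.lower [DecidablePred pos] {x : ℝ} {f : (∀ i, X i) → K} (hf : Rk pos x f) {σ : Type}
    [Fintype σ] [DecidableEq σ] (r : σ → ∀ i, X i)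
    (h : (Matrix.of fun s t => f fun i => if pos i then r s i else r t i).det ≠ 0) :
    (Fintype.card σ : ℝ) ≤ x := by
  obtain ⟨ι, _, a, b, h1, h2, h3, h4⟩ := hf
  have e : (Matrix.of fun s t => f fun i => if pos i then r s i else r t i) =
      (Matrix.of fun s j => a j (r s)) * Matrix.of fun j t => b j (r t) := by
    ext s t
    simp only [Matrix.of_apply, Matrix.mul_apply, h4]
    exact sum_congr rfl fun j _ => by
      rw [h2 j _ (r s) fun i hi => if_pos hi, h3 j _ (r t) fun i hi => if_neg hi]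
  have h5 := Matrix.rank_of_isUnit _ ((Matrix.isUnit_iff_isUnit_det _).2 (Ne.isUnit h))
  rw [e] at h5
  have h6 := (Matrix.rank_mul_le_left (Matrix.of fun s j => a j (r s))
    (Matrix.of fun j t => b j (r t))).trans (Matrix.rank_le_card_width _)
  rw [h5] at h6
  exact (Nat.cast_le.2 h6).trans h1

end Rank

section Comp

open MvPowerSeries

variable [DecidableEq D] [∀ i, DecidableEq (X i)]

/-- the set-multilinear monomial on the blocks in `S` chosen by `ω` -/
noncomputable def mono (S : Finset D) (ω : ∀ i, X i) : (Σ i, X i) →₀ ℕ :=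
  ∑ i ∈ S, Finsupp.single ⟨i, ω i⟩ 1

theorem mono_apply (S : Finset D) (ω : ∀ i, X i) (i : D) (a : X i) :
    mono S ω ⟨i, a⟩ = if i ∈ S ∧ ω i = a then 1 else 0 := by
  have : ∀ j, (Finsupp.single (⟨j, ω j⟩ : Σ i, X i) 1 : _ →₀ ℕ) ⟨i, a⟩ =
      if j = i then (if ω i = a then 1 else 0) else 0 := fun j => by
    by_cases h : j = i
    · subst h
      simp [Finsupp.single_apply]
    · rw [if_neg h, Finsupp.single_eq_of_ne' fun h' => h (congrArg Sigma.fst h')]
  rw [mono, Finsupp.finsetSum_apply, sum_congr rfl fun j _ => this j, sum_ite_eq']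
  by_cases h : i ∈ S <;> simp [h]

omit [DecidableEq D] [∀ i, DecidableEq (X i)] in
theorem mono_degree (S : Finset D) (ω : ∀ i, X i) : (mono S ω).degree = S.card := by
  simp [mono, map_sum]

theorem mono_antidiagonal (S : Finset D) (ω : ∀ i, X i) :
    HasAntidiagonal.antidiagonal (mono S ω) = S.powerset.image fun T => (mono T ω, mono (S \ T) ω) := by
  ext ⟨α, β⟩
  simp only [HasAntidiagonal.mem_antidiagonal, mem_image, mem_powerset, Prod.mk.injEq]
  constructor
  · intro h
    refine ⟨S.filter fun i => α ⟨i, ω i⟩ ≠ 0, filter_subset _ _, ?_, ?_⟩ <;>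
    · ext ⟨i, a⟩
      have h1 := DFunLike.congr_fun h ⟨i, a⟩
      rw [Finsupp.add_apply, mono_apply] at h1
      rw [mono_apply]
      by_cases h2 : ω i = a
      · subst h2
        by_cases h3 : i ∈ S <;> by_cases h4 : α ⟨i, ω i⟩ = 0 <;>
          simp [h3, h4] at h1 ⊢ <;> omega
      · simp only [h2, and_false, if_false] at h1 ⊢
        omega
  · rintro ⟨T, hT, rfl, rfl⟩
    rw [mono, mono, mono, add_comm, sum_sdiff hT]

theorem mono_inj (ω : ∀ i, X i) {S T : Finset D} (h : mono S ω = mono T ω) : S = T := by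
  ext i
  have := DFunLike.congr_fun h ⟨i, ω i⟩
  rw [mono_apply, mono_apply] at this
  by_cases h1 : i ∈ S <;> by_cases h2 : i ∈ T <;> simp [h1, h2] at this ⊢

variable {A : Type} [CommRing A]

/-- the set-multilinear component on the blocks in `S` -/
noncomputable def comp (S : Finset D) (p : MvPowerSeries (Σ i, X i) A) (ω : ∀ i, X i) : A :=
  coeff (mono S ω) p

omit [DecidableEq D] [∀ i, DecidableEq (X i)] in
theorem comp_dep (S : Finset D) (p : MvPowerSeries (Σ i, X i) A) : Dep (· ∈ S) (comp S p) :=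
  fun ω ω' h => by
    rw [comp, comp, mono, mono, sum_congr rfl fun i hi => by rw [h i hi]]

omit [DecidableEq D] [∀ i, DecidableEq (X i)] in
theorem comp_empty (p : MvPowerSeries (Σ i, X i) A) (ω : ∀ i, X i) :
    comp ∅ p ω = constantCoeff p := by
  simp [comp, mono]

theorem comp_mul (S : Finset D) (p q : MvPowerSeries (Σ i, X i) A) (ω : ∀ i, X i) :
    comp S (p * q) ω = ∑ T ∈ S.powerset, comp T p ω * comp (S \ T) q ω := by
  rw [comp, coeff_mul, mono_antidiagonal, sum_image fun T _ T' _ h => mono_inj ω (congrArg Prod.fst h)]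
  rfl

theorem comp_mul' (S : Finset D) (p q : MvPowerSeries (Σ i, X i) A) (ω : ∀ i, X i) :
    comp S (p * q) ω = constantCoeff p * comp S q ω +
      ∑ T ∈ S.powerset.erase ∅, comp T p ω * comp (S \ T) q ω := by
  rw [comp_mul, ← add_sum_erase _ _ (empty_mem_powerset S), comp_empty, sdiff_empty]

theorem comp_C (S : Finset D) (c : A) (ω : ∀ i, X i) :
    comp S (C c : MvPowerSeries (Σ i, X i) A) ω = if S = ∅ then c else 0 := by
  rw [comp, coeff_C]
  refine if_congr ⟨fun h => mono_inj ω (h.trans ?_), fun h => ?_⟩ rfl rfl <;> simp [mono, *]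

omit [DecidableEq D] [∀ i, DecidableEq (X i)] in
theorem comp_C_mul (S : Finset D) (c : A) (p : MvPowerSeries (Σ i, X i) A) (ω : ∀ i, X i) :
    comp S (C c * p) ω = c * comp S p ω := coeff_C_mul _ _ _

omit [DecidableEq D] [∀ i, DecidableEq (X i)] in
theorem comp_add (S : Finset D) (p q : MvPowerSeries (Σ i, X i) A) (ω : ∀ i, X i) :
    comp S (p + q) ω = comp S p ω + comp S q ω := map_add _ _ _

omit [DecidableEq D] [∀ i, DecidableEq (X i)] in
theorem comp_sum {α : Type} (S : Finset D) (s : Finset α) (p : α → MvPowerSeries (Σ i, X i) A)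
    (ω : ∀ i, X i) : comp S (∑ a ∈ s, p a) ω = ∑ a ∈ s, comp S (p a) ω := map_sum _ _ _

theorem comp_X (S : Finset D) (i : D) (a : X i) (ω : ∀ i, X i) :
    comp S (MvPowerSeries.X ⟨i, a⟩ : MvPowerSeries (Σ i, X i) A) ω =
      if S = {i} ∧ ω i = a then 1 else 0 := by
  rw [comp, coeff_X]
  refine if_congr ⟨fun h => ?_, ?_⟩ rfl rfl
  · have h1 := DFunLike.congr_fun h ⟨i, a⟩
    rw [mono_apply, Finsupp.single_eq_same] at h1
    have h2 : ω i = a := by
      by_contra h2
      simp [h2] at h1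
    subst h2
    exact ⟨mono_inj ω (h.trans (by simp [mono])), rfl⟩
  · rintro ⟨rfl, rfl⟩
    simp [mono]

theorem comp_X_mul (S : Finset D) (i : D) (a : X i) (p : MvPowerSeries (Σ i, X i) A)
    (ω : ∀ i, X i) : comp S (MvPowerSeries.X ⟨i, a⟩ * p) ω =
      if i ∈ S ∧ ω i = a then comp (S.erase i) p ω else 0 := by
  rw [comp_mul]
  simp only [comp_X, ite_and, ite_mul, sum_ite_eq', mem_powerset, singleton_subset_iff, one_mul,
    zero_mul, sdiff_singleton_eq_erase]

/-- the Euler operator -/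
noncomputable def Eu {σ : Type} (p : MvPowerSeries σ A) : MvPowerSeries σ A :=
  fun μ => (μ.degree : A) * coeff μ p

theorem coeff_Eu {σ : Type} (p : MvPowerSeries σ A) (μ : σ →₀ ℕ) :
    coeff μ (Eu p) = (μ.degree : A) * coeff μ p := rfl

theorem Eu_mul {σ : Type} (p q : MvPowerSeries σ A) : Eu (p * q) = Eu p * q + p * Eu q := by
  classical
  ext μ
  simp only [map_add, coeff_Eu, coeff_mul, mul_sum, ← sum_add_distrib]
  refine sum_congr rfl fun x hx => ?_
  rw [← HasAntidiagonal.mem_antidiagonal.1 hx, map_add, Nat.cast_add]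
  ring

theorem Eu_C {σ : Type} (c : A) : Eu (C c : MvPowerSeries σ A) = 0 := by
  classical
  ext μ
  rw [coeff_Eu, coeff_C]
  split_ifs with h <;> simp [h]

theorem const_Eu {σ : Type} (p : MvPowerSeries σ A) : constantCoeff (Eu p) = 0 := by
  rw [← coeff_zero_eq_constantCoeff_apply, coeff_Eu]
  simp

omit [DecidableEq D] [∀ i, DecidableEq (X i)] in
theorem comp_Eu (S : Finset D) (p : MvPowerSeries (Σ i, X i) A) (ω : ∀ i, X i) :
    comp S (Eu p) ω = S.card * comp S p ω := by
  rw [comp, coeff_Eu, mono_degree, comp]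

end Comp

end Pool.Agent.MP_57f271_lc.H27
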