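import Pool.Agent.MP_57f271_lc.H27.Step
import Pool.Agent.MP_57f271_lc.H18.Splice

namespace Pool.Agent.MP_57f271_lc.H27

open Pool.Agent.MP_57f271_lc.H18 Function MvPowerSeries

variable {A : Type} [CommRing A]

/-- operations in a commutative ring -/
noncomputable def opA : Op → A → A → A
  | .add, a, b => a + b
  | .sub, a, b => a - b
  | .mul, a, b => a * b
  | .div, a, b => a * Ring.inverse b

open Classical in
/-- one step of a machine on a state with entries in a commutative ring -/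
noncomputable def stepA (M : Machine) (κ : ℂ → A) (c : Fin M.m × (ℤ → A)) : Fin M.m × (ℤ → A) :=
  match M.instr c.1 with
  | .arith o i j k next => (next, update c.2 k (opA o (c.2 i) (c.2 j)))
  | .scale a i k next => (next, update c.2 k (κ a * c.2 i))
  | .const a k next => (next, update c.2 k (κ a))
  | .shift left next => (next, fun i => c.2 (if left then i + 1 else i - 1))
  | .branch i yes no => (if c.2 i = 0 then yes else no, c.2)
  | .output _ => c

/-- the tested entry or the denominator -/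
def critv {Q : Type} : Instr Q → (ℤ → A) → A
  | .branch i _ _, x => x i
  | .arith .div _ j _ _, x => x j
  | _, _ => 0

theorem critv_eq {Q : Type} (I : Instr Q) (x : ℤ → A) : critv I x = 0 ∨ ∃ n, critv I x = x n := by
  rcases I with ⟨o, i, j, k, q⟩ | _ | _ | _ | _ | _
  · cases o
    exacts [.inl rfl, .inl rfl, .inl rfl, .inr ⟨_, rfl⟩]
  exacts [.inl rfl, .inl rfl, .inl rfl, .inr ⟨_, rfl⟩, .inl rfl]

theorem map_inverse {B : Type} [CommRing B] (φ : A →+* B) {x : A} (h : x = 0 ∨ IsUnit x) :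
    φ (Ring.inverse x) = Ring.inverse (φ x) := by
  rcases h with rfl | h
  · simp
  · exact (Ring.eq_mul_inverse_iff_mul_eq _ _ _ (h.map φ)).2
      (by rw [← map_mul, Ring.inverse_mul_cancel x h, map_one]) |>.trans (one_mul _)

/-- the critical value of a configuration is zero or a unit -/
def Ok (M : Machine) (c : Fin M.m × (ℤ → A)) : Prop :=
  critv (M.instr c.1) c.2 = 0 ∨ IsUnit (critv (M.instr c.1) c.2)

theorem map_step (M : Machine) {κ : ℂ → A} (φ : A →+* ℂ)
    (hκ : ∀ q, φ (κ (M.instr q).cst) = (M.instr q).cst) {c : Fin M.m × (ℤ → A)} (h : Ok M c) :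
    M.step (c.1, φ ∘ c.2) = ((stepA M κ c).1, φ ∘ (stepA M κ c).2) := by
  have h1 := hκ c.1
  unfold Ok at h
  unfold Machine.step stepA
  rcases hI : M.instr c.1 with ⟨o, i, j, k, q⟩ | ⟨a, i, k, q⟩ | ⟨a, k, q⟩ | ⟨l, q⟩ | ⟨i, y, n⟩ | b <;>
    simp only [hI, Instr.cst] at h h1 ⊢
  · rw [comp_update]
    cases o <;> simp only [opA, Op.eval, map_add, map_sub, map_mul, comp_apply]
    rw [map_inverse φ (x := c.2 j) h, Ring.inverse_eq_inv', div_eq_mul_inv]
  · rw [comp_update, map_mul, h1]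
    rfl
  · rw [comp_update, h1]
  · rfl
  · rcases h with h | h
    · have h : c.2 i = 0 := h
      simp [h]
    · have h : IsUnit (c.2 i) := h
      have h2 := (h.map φ).ne_zero
      have h3 : c.2 i ≠ 0 := fun h3 => h2 (by rw [h3, map_zero])
      simp [h2, h3]

theorem map_run (M : Machine) {κ : ℂ → A} (φ : A →+* ℂ)
    (hκ : ∀ q, φ (κ (M.instr q).cst) = (M.instr q).cst) (c : Fin M.m × (ℤ → A)) (j : ℕ)
    (h : ∀ i < j, Ok M ((stepA M κ)^[i] c)) :
    M.step^[j] (c.1, φ ∘ c.2) = (((stepA M κ)^[j] c).1, φ ∘ ((stepA M κ)^[j] c).2) := by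
  induction j with
  | zero => rfl
  | succ j ih =>
    rw [iterate_succ_apply', iterate_succ_apply', ih fun i hi => h i (by omega),
      map_step M φ hκ (h j (by omega))]

variable {D : Type} [DecidableEq D] {X : D → Type} [∀ i, DecidableEq (X i)]

theorem step_cl (M : Machine) {κ : ℂ → A} (Θ : A →+* PS X) (hκ : ∀ c, ∃ c', Θ (κ c) = C c')
    {O : Finset (ℕ × PS X)} {c : Fin M.m × (ℤ → A)} {l : ℤ → ℕ} (h : Ok M c)
    (hc : ∀ n, Cl O (l n) (Θ (c.2 n)))
    (h1 : (l (M.instr c.1).r1, Θ (c.2 (M.instr c.1).r1)) ∈ O)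
    (h2 : (l (M.instr c.1).r2, Θ (c.2 (M.instr c.1).r2)) ∈ O) (n : ℤ) :
    Cl O (stepLevel (M.instr c.1) l n) (Θ ((stepA M κ c).2 n)) := by
  have upd : ∀ k a x, Cl O a (Θ x) → Cl O (update l k a n) (Θ (update c.2 k x n)) :=
    fun k a x hx => by
      by_cases hn : n = k
      · subst hn
        rwa [update_self, update_self]
      · rw [update_of_ne hn, update_of_ne hn]
        exact hc n
  unfold Ok at h
  unfold stepA
  rcases hI : M.instr c.1 with ⟨o, i, j, k, q⟩ | ⟨a, i, k, q⟩ | ⟨a, k, q⟩ | ⟨l, q⟩ | ⟨i, y, n⟩ | b <;>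
    simp only [hI, stepLevel, Instr.r1, Instr.r2] at h h1 h2 ⊢
  · refine upd _ _ _ ?_
    cases o <;> simp only [opA, map_add, map_sub, map_mul]
    · simpa using (hc i).add (hc j) h1 h2 1
    · simpa [sub_eq_add_neg, opLevel] using (hc i).add (hc j) h1 h2 (-1)
    · exact (hc i).mul (hc j) h1 h2
    · rw [map_inverse Θ (x := c.2 j) h]
      exact (hc i).div (hc j) h1 h2
  · refine upd _ _ _ ?_
    obtain ⟨c', h3⟩ := hκ a
    rw [map_mul, h3]
    exact (hc i).smul c'
  · exact upd _ _ _ (hκ a)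
  all_goals exact hc _

theorem run_cl (M : Machine) {κ : ℂ → A} (Θ : A →+* PS X) (hκ : ∀ c, ∃ c', Θ (κ c) = C c')
    (c : Fin M.m × (ℤ → A)) (l : ℕ → ℤ → ℕ) (j : ℕ) (h : ∀ i < j, Ok M ((stepA M κ)^[i] c))
    (hl : ∀ i < j, l (i + 1) = stepLevel (M.instr ((stepA M κ)^[i] c).1) (l i))
    (h0 : ∀ O n, Cl O (l 0 n) (Θ (c.2 n))) :
    ∃ O : Finset (ℕ × PS X), O.card ≤ 2 * j ∧ (∀ y ∈ O, Cl O y.1 y.2) ∧
      ∀ n, Cl O (l j n) (Θ (((stepA M κ)^[j] c).2 n)) := by
  classical
  let f : (Instr (Fin M.m) → ℤ) → ℕ → ℕ × PS X := fun r i =>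
    (l i (r (M.instr ((stepA M κ)^[i] c).1)),
      Θ (((stepA M κ)^[i] c).2 (r (M.instr ((stepA M κ)^[i] c).1))))
  let O := (Finset.range j).image (f Instr.r1) ∪ (Finset.range j).image (f Instr.r2)
  have key : ∀ i ≤ j, ∀ n, Cl O (l i n) (Θ (((stepA M κ)^[i] c).2 n)) := fun i hi => by
    induction i with
    | zero => exact h0 O
    | succ i ih =>
      rw [iterate_succ_apply', hl i hi]
      exact step_cl M Θ hκ (h i hi) (ih (by omega))
        (Finset.mem_union_left _ (Finset.mem_image_of_mem (f Instr.r1) (Finset.mem_range.2 hi)))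
        (Finset.mem_union_right _ (Finset.mem_image_of_mem (f Instr.r2) (Finset.mem_range.2 hi)))
  refine ⟨O, (Finset.card_union_le _ _).trans ?_, fun y hy => ?_, key j le_rfl⟩
  · have := fun r => Finset.card_image_le (s := Finset.range j) (f := f r)
    have h1 := this Instr.r1
    have h2 := this Instr.r2
    rw [Finset.card_range] at h1 h2
    omega
  · rcases Finset.mem_union.1 hy with hy | hy <;>
    · obtain ⟨i, hi, rfl⟩ := Finset.mem_image.1 hy
      exact key i (Finset.mem_range.1 hi).le _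

end Pool.Agent.MP_57f271_lc.H27
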