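import Pool.Agent.MP_57f271_lc.H27.Rank
import Pool.Agent.MP_57f271_lc.H27.Defs

namespace Pool.Agent.MP_57f271_lc.H27

open Finset MvPowerSeries Real

variable {D : Type} [DecidableEq D] [Fintype D] {X : D → Type} [∀ i, DecidableEq (X i)]

/-- power series in the block variables -/
abbrev PS (X : D → Type) := MvPowerSeries (Σ i, X i) ℂ

/-- data of the rank measure -/
structure Par (X : D → Type) where
  pos : D → Prop
  ρ : D → ℝ
  κ : ℝ
  ρ_pos : ∀ i, 0 < ρ i
  κ_nonneg : 0 ≤ κ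
  triv : ∀ (T : Finset D) (p : PS X), Rk pos ((∏ i ∈ T, ρ i) * exp (-κ / T.card)) (comp T p)

variable (P : Par X)

/-- all large components have small relative rank -/
def Good (τ : ℕ) (ε : ℝ) (p : PS X) : Prop :=
  ∀ S : Finset D, τ ≤ S.card → Rk P.pos (ε * ∏ i ∈ S, P.ρ i) (comp S p)

/-- the bound propagated through products -/
noncomputable def bd (τ : ℕ) (ε : ℝ) (S : Finset D) : ℝ :=
  2 ^ (Fintype.card D * S.card) * (∏ i ∈ S, P.ρ i) * max (exp (-P.κ * S.card / τ ^ 2)) ε

variable {P}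

omit [DecidableEq D] [Fintype D] [∀ i, DecidableEq (X i)] in
theorem rho_pos (S : Finset D) : 0 < ∏ i ∈ S, P.ρ i := prod_pos fun i _ => P.ρ_pos i

omit [DecidableEq D] [Fintype D] [∀ i, DecidableEq (X i)] in
theorem Good.mono {τ τ' : ℕ} {ε ε' : ℝ} {p : PS X} (h : Good P τ ε p) (h1 : τ ≤ τ')
    (h2 : ε ≤ ε') : Good P τ' ε' p := fun S hS =>
  (h S (h1.trans hS)).mono (mul_le_mul_of_nonneg_right h2 (rho_pos S).le)

omit [DecidableEq D] [∀ i, DecidableEq (X i)] in
theorem bd_nonneg (τ : ℕ) (ε : ℝ) (S : Finset D) : 0 ≤ bd P τ ε S :=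
  mul_nonneg (mul_nonneg (by positivity) (rho_pos S).le) (le_max_of_le_left (exp_pos _).le)

omit [∀ i, DecidableEq (X i)] in
theorem core {τ : ℕ} {ε : ℝ} {h r : PS X} (hh : Good P τ ε h) (hε : 0 ≤ ε) (S : Finset D)
    (hr : ∀ T ⊂ S, Rk P.pos (bd P τ ε T) (comp T r)) :
    Rk P.pos (bd P τ ε S) fun ω => ∑ T ∈ S.powerset.erase ∅, comp T h ω * comp (S \ T) r ω := by
  rcases S.eq_empty_or_nonempty with rfl | hS
  · simpa using Rk.zero (bd_nonneg τ ε ∅)
  obtain ⟨n, hn⟩ : ∃ n, S.card = n + 1 := ⟨S.card - 1, by have := hS.card_pos; omega⟩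
  set μ := max (exp (-P.κ * S.card / τ ^ 2)) ε with hμ
  have hμ0 : 0 ≤ μ := le_max_of_le_right hε
  refine (Rk.sum (x := 2 ^ (Fintype.card D * n) * (∏ i ∈ S, P.ρ i) * μ) _ fun T hT => ?_).mono ?_
  · obtain ⟨hT0, hTS⟩ := mem_erase.1 hT
    rw [mem_powerset] at hTS
    have hT1 : 1 ≤ T.card := (nonempty_iff_ne_empty.2 hT0).card_pos
    have hc := card_sdiff_add_card_eq_card hTS
    have hρ : (∏ i ∈ S, P.ρ i) = (∏ i ∈ T, P.ρ i) * ∏ i ∈ S \ T, P.ρ i := by
      rw [mul_comm, prod_sdiff hTS]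
    have p1 := rho_pos (P := P) T
    have p2 := rho_pos (P := P) (S \ T)
    have h2 : (1 : ℝ) ≤ 2 ^ (Fintype.card D * n) := one_le_pow₀ one_le_two
    by_cases hτ : τ ≤ T.card
    · refine ((hh T hτ).mul (P.triv (S \ T) r)).mono ?_
      have h3 : exp (-P.κ / (S \ T).card) ≤ 1 := exp_le_one_iff.2
        (div_nonpos_of_nonpos_of_nonneg (neg_nonpos.2 P.κ_nonneg) (Nat.cast_nonneg _))
      calc _ = 1 * ((∏ i ∈ T, P.ρ i) * ∏ i ∈ S \ T, P.ρ i) * (ε * exp (-P.κ / (S \ T).card)) := by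
            ring
        _ ≤ _ := by
            rw [hρ]
            gcongr
            exact (mul_le_of_le_one_right hε h3).trans (le_max_right _ _)
    · refine ((P.triv T h).mul (hr (S \ T) (sdiff_ssubset hTS (nonempty_iff_ne_empty.2 hT0)))).mono ?_
      have h3 : exp (-P.κ / T.card) ≤ exp (-P.κ * T.card / τ ^ 2) := by
        have h4 : (0 : ℝ) < T.card := by exact_mod_cast hT1
        have h5 : (T.card : ℝ) ≤ τ := by exact_mod_cast (not_le.1 hτ).le
        rw [exp_le_exp, div_le_div_iff₀ h4 (by have := h4.trans_le h5; positivity)]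
        have := mul_le_mul_of_nonneg_left (mul_self_le_mul_self h4.le h5) P.κ_nonneg
        nlinarith
      have h4 : exp (-P.κ / T.card) * max (exp (-P.κ * (S \ T).card / τ ^ 2)) ε ≤ μ := by
        rw [mul_max_of_nonneg _ _ (exp_pos _).le]
        refine max_le_max ((mul_le_mul_of_nonneg_right h3 (exp_pos _).le).trans (le_of_eq ?_))
          (mul_le_of_le_one_left hε (exp_le_one_iff.2
            (div_nonpos_of_nonpos_of_nonneg (neg_nonpos.2 P.κ_nonneg) (Nat.cast_nonneg _))))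
        rw [← exp_add, ← hc]
        push_cast
        ring_nf
      calc _ = 2 ^ (Fintype.card D * (S \ T).card) * ((∏ i ∈ T, P.ρ i) * ∏ i ∈ S \ T, P.ρ i) *
            (exp (-P.κ / T.card) * max (exp (-P.κ * (S \ T).card / τ ^ 2)) ε) := by
            rw [bd]; ring
        _ ≤ _ := by
            rw [hρ]
            gcongr
            · exact one_le_two
            · omega
  · have h1 : ((S.powerset.erase ∅).card : ℝ) ≤ 2 ^ Fintype.card D := by
      exact_mod_cast (card_erase_le.trans (card_powerset S).le).trans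
        (Nat.pow_le_pow_right two_pos (card_le_univ S))
    have p1 := rho_pos (P := P) S
    calc _ ≤ 2 ^ Fintype.card D * (2 ^ (Fintype.card D * n) * (∏ i ∈ S, P.ρ i) * μ) := by gcongr
      _ = _ := by rw [bd, ← hμ, hn]; ring

theorem bd_mul {τ : ℕ} {ε : ℝ} {h r : PS X} (hh : Good P τ ε h) (hε : 0 ≤ ε)
    (h0 : constantCoeff h = 0) (hr : ∀ T, Rk P.pos (bd P τ ε T) (comp T r)) (S : Finset D) :
    Rk P.pos (bd P τ ε S) (comp S (h * r)) :=
  (core hh hε S fun T _ => hr T).congr fun ω => by rw [comp_mul', h0, zero_mul, zero_add]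

omit [∀ i, DecidableEq (X i)] in
theorem bd_rec {τ : ℕ} {ε : ℝ} {h r : PS X} (hh : Good P τ ε h) (hε : 0 ≤ ε)
    (hr : ∀ S : Finset D, S.Nonempty → ∃ c : ℂ, ∀ ω, comp S r ω =
      c * ∑ T ∈ S.powerset.erase ∅, comp T h ω * comp (S \ T) r ω) (S : Finset D) :
    Rk P.pos (bd P τ ε S) (comp S r) := by
  induction S using Finset.strongInduction with
  | H S ih =>
    rcases S.eq_empty_or_nonempty with rfl | hS
    · exact (P.triv ∅ r).mono (by simp [bd])
    · obtain ⟨c, hc⟩ := hr S hS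
      exact ((core hh hε S ih).smul c).congr hc

omit [DecidableEq D] [∀ i, DecidableEq (X i)] in
theorem good_of_bd {τ φ : ℕ} {ε : ℝ} {r : PS X} (hτ : 0 < τ) (hε : exp (-P.κ * φ) ≤ ε)
    (hr : ∀ T, Rk P.pos (bd P τ ε T) (comp T r)) :
    Good P (φ * τ ^ 2) (2 ^ (Fintype.card D ^ 2) * ε) r := fun S hS => (hr S).mono (by
  have h1 : exp (-P.κ * S.card / τ ^ 2) ≤ ε := by
    refine le_trans (exp_le_exp.2 ?_) hε
    rw [div_le_iff₀ (by positivity)]
    have : (φ : ℝ) * τ ^ 2 ≤ S.card := by exact_mod_cast hS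
    nlinarith [mul_le_mul_of_nonneg_left this P.κ_nonneg]
  have p1 := rho_pos (P := P) S
  have p2 := (exp_pos _).le.trans hε
  rw [bd, max_eq_right h1]
  calc _ ≤ 2 ^ (Fintype.card D ^ 2) * (∏ i ∈ S, P.ρ i) * ε := by
        gcongr
        · exact one_le_two
        · rw [sq]; exact Nat.mul_le_mul_left _ (card_le_univ S)
    _ = _ := by ring)

omit [DecidableEq D] [Fintype D] [∀ i, DecidableEq (X i)] in
theorem good_span {τ : ℕ} {ε : ℝ} {O : Finset (PS X)} (hO : ∀ h ∈ O, Good P τ ε h) {r : PS X}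
    (hr : r ∈ Submodule.span ℂ (O : Set (PS X))) : Good P τ (O.card * ε) r := fun S hS => by
  obtain ⟨c, -, rfl⟩ := Submodule.mem_span_finset.1 hr
  refine ((Rk.sum O fun h hh => (hO h hh S hS).smul (c h)).mono (le_of_eq (by ring))).congr
    fun ω => ?_
  rw [comp_sum]
  exact sum_congr rfl fun h _ => by rw [smul_eq_C_mul, comp_C_mul]

/-- units whose logarithmic derivative is a combination of those of the elements of `O` -/
def LogD (O : Finset (PS X)) (u : PS X) : Prop :=
  IsUnit u ∧ ∃ l ∈ Submodule.span ℂ ((fun h => Eu h * Ring.inverse h) '' (O : Set (PS X))),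
    Eu u = l * u

/-- products of powers of elements of `O` -/
inductive Mon (O : Finset (PS X)) : PS X → Prop
  | unit {u : PS X} : LogD O u → Mon O u
  | cons {h r : PS X} : h ∈ O → constantCoeff h = 0 → Mon O r → Mon O (h * r)
  | smul {r : PS X} (c : ℂ) : Mon O r → Mon O (C c * r)

section
omit [DecidableEq D] [Fintype D] [∀ i, DecidableEq (X i)]

theorem LogD.mul {O : Finset (PS X)} {u v : PS X} (hu : LogD O u) (hv : LogD O v) :
    LogD O (u * v) := by
  obtain ⟨h1, l, hl, h2⟩ := hu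
  obtain ⟨h1', l', hl', h2'⟩ := hv
  exact ⟨h1.mul h1', l + l', add_mem hl hl', by rw [Eu_mul, h2, h2']; ring⟩

theorem LogD.C {O : Finset (PS X)} {c : ℂ} (hc : c ≠ 0) : LogD O (C c) :=
  ⟨isUnit_iff_constantCoeff.2 (by simpa using hc), 0, zero_mem _, by rw [Eu_C, zero_mul]⟩

theorem LogD.inv {O : Finset (PS X)} {u : PS X} (hu : LogD O u) : LogD O (Ring.inverse u) := by
  obtain ⟨h1, l, hl, h2⟩ := hu
  refine ⟨h1.ringInverse, -l, neg_mem hl, ?_⟩
  have h3 := Ring.mul_inverse_cancel u h1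
  have h4 := Eu_mul u (Ring.inverse u)
  rw [h3, ← map_one (MvPowerSeries.C (σ := Σ i, X i) (R := ℂ)), Eu_C, h2] at h4
  linear_combination (-Ring.inverse u) * h4 - (Eu (Ring.inverse u) + l * Ring.inverse u) * h3

theorem Mon.mul {O : Finset (PS X)} {u v : PS X} (hu : Mon O u) (hv : Mon O v) :
    Mon O (u * v) := by
  induction hu with
  | cons h1 h2 _ ih => rw [mul_assoc]; exact .cons h1 h2 ih
  | smul c _ ih => rw [mul_assoc]; exact .smul c ih
  | unit hu =>
    induction hv with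
    | cons h1 h2 _ ih => rw [mul_left_comm]; exact .cons h1 h2 ih
    | smul c _ ih => rw [mul_left_comm]; exact .smul c ih
    | unit hv => exact .unit (hu.mul hv)

theorem Mon.logD {O : Finset (PS X)} {u : PS X} (hu : Mon O u) (h : IsUnit u) : LogD O u := by
  induction hu with
  | unit hu => exact hu
  | cons _ h2 _ _ =>
    have := isUnit_iff_constantCoeff.1 (isUnit_of_mul_isUnit_left h)
    rw [h2] at this
    exact absurd this not_isUnit_zero
  | smul c _ ih =>
    have := isUnit_iff_constantCoeff.1 (isUnit_of_mul_isUnit_left h)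
    exact (LogD.C (by simpa using this)).mul (ih (isUnit_of_mul_isUnit_right h))

theorem Mon.C {O : Finset (PS X)} (c : ℂ) : Mon O (C c) := by
  simpa using Mon.smul c (.unit (LogD.C (O := O) one_ne_zero))

theorem Mon.inv {O : Finset (PS X)} {u : PS X} (hu : Mon O u) : Mon O (Ring.inverse u) := by
  by_cases h : IsUnit u
  · exact .unit (hu.logD h).inv
  · rw [Ring.inverse_non_unit u h]
    simpa using Mon.C (O := O) 0

theorem Mon.of_mem {O : Finset (PS X)} {h : PS X} (hh : h ∈ O) : Mon O h := by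
  by_cases h0 : constantCoeff h = 0
  · simpa using Mon.cons hh h0 (Mon.C 1)
  · have hu : IsUnit h := isUnit_iff_constantCoeff.2 (Ne.isUnit h0)
    exact .unit ⟨hu, _, Submodule.subset_span ⟨h, hh, rfl⟩, by
      rw [mul_assoc, Ring.inverse_mul_cancel h hu, mul_one]⟩

end

theorem good_logd {τ φ : ℕ} {ε : ℝ} {h : PS X} (hτ : 0 < τ) (hε : exp (-P.κ * φ) ≤ ε)
    (hh : Good P τ ε h) :
    Good P (φ * τ ^ 2) (2 ^ (Fintype.card D ^ 2) * ε) (Eu h * Ring.inverse h) := by
  have p2 := (exp_pos _).le.trans hε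
  refine good_of_bd hτ hε (bd_mul (fun S hS => ((hh S hS).smul S.card).congr (comp_Eu S h)) p2
    (const_Eu h) (bd_rec hh p2 fun S hS => ?_))
  by_cases hu : IsUnit h
  · refine ⟨-(constantCoeff h)⁻¹, fun ω => ?_⟩
    have h1 := comp_mul' S h (Ring.inverse h) ω
    rw [Ring.mul_inverse_cancel h hu, ← map_one (MvPowerSeries.C (σ := Σ i, X i) (R := ℂ)), comp_C,
      if_neg hS.ne_empty] at h1
    have h2 := (isUnit_iff_constantCoeff.1 hu).ne_zero
    field_simp
    linear_combination -h1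
  · exact ⟨0, fun ω => by simp [Ring.inverse_non_unit h hu, comp]⟩

theorem good_mon {τ φ s : ℕ} {ε : ℝ} {O : Finset (PS X)} (hτ : 0 < τ) (hφ : 0 < φ)
    (hε : exp (-P.κ * φ) ≤ ε) (hs : O.card ≤ s) (hs1 : 1 ≤ s) (hO : ∀ h ∈ O, Good P τ ε h)
    {r : PS X} (hr : Mon O r) :
    Good P (φ * (φ * τ ^ 2) ^ 2) (s * 2 ^ (2 * Fintype.card D ^ 2) * ε) r := by
  classical
  have p2 := (exp_pos _).le.trans hε
  have h1 : ε ≤ s * (2 ^ (Fintype.card D ^ 2) * ε) := by
    have h2 : (1 : ℝ) ≤ 2 ^ (Fintype.card D ^ 2) := one_le_pow₀ one_le_two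
    have h3 : (1 : ℝ) ≤ s := by exact_mod_cast hs1
    exact (le_mul_of_one_le_left p2 h2).trans (le_mul_of_one_le_left (by positivity) h3)
  have h2 : τ ≤ φ * τ ^ 2 := by nlinarith
  refine (good_of_bd (by positivity) (hε.trans h1) ?_).mono le_rfl (le_of_eq (by ring))
  induction hr with
  | cons h3 h4 _ ih => exact bd_mul ((hO _ h3).mono h2 h1) (p2.trans h1) h4 ih
  | smul c _ ih => exact fun T => ((ih T).smul c).congr (comp_C_mul T c _)
  | @unit u hu =>
    obtain ⟨-, l, hl, h3⟩ := hu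
    have h0 : constantCoeff l = 0 := by
      refine Submodule.span_induction (p := fun l _ => constantCoeff l = 0) ?_ (map_zero _)
        (fun _ _ _ _ a b => by rw [map_add, a, b, add_zero])
        (fun c _ _ a => by rw [smul_eq_C_mul, map_mul, a, mul_zero]) hl
      rintro _ ⟨h, -, rfl⟩
      rw [map_mul, const_Eu, zero_mul]
    rw [← coe_image] at hl
    have h4 := (good_span (fun h hh => by
      obtain ⟨g, hg, rfl⟩ := mem_image.1 hh
      exact good_logd hτ hε (hO g hg)) hl).mono le_rfl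
      (mul_le_mul_of_nonneg_right (Nat.cast_le.2 (card_image_le.trans hs)) (by positivity))
    refine bd_rec h4 (p2.trans h1) fun S hS => ⟨(S.card : ℂ)⁻¹, fun ω => ?_⟩
    have h5 := comp_mul' S l u ω
    rw [← h3, comp_Eu, h0, zero_mul, zero_add] at h5
    have h6 : (S.card : ℂ) ≠ 0 := Nat.cast_ne_zero.2 hS.card_pos.ne'
    rw [← h5, inv_mul_cancel_left₀ h6]

/-- no components on two or more blocks -/
def Lin {A : Type} [CommRing A] (p : MvPowerSeries (Σ i, X i) A) : Prop :=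
  ∀ S : Finset D, 2 ≤ S.card → ∀ ω, comp S p ω = 0

open Classical in
/-- the recorded operands of level at most `l` -/
noncomputable def low (O : Finset (ℕ × PS X)) (l : ℕ) : Finset (PS X) :=
  (O.filter fun x => x.1 ≤ l).image Prod.snd

/-- the shape of a value of a given level -/
def Cl (O : Finset (ℕ × PS X)) : ℕ → PS X → Prop
  | 0, r => ∃ c, r = C c
  | 1, r => Lin r
  | l + 2, r => if l % 2 = 0 then Mon (low O (l + 1)) r else
      r ∈ Submodule.span ℂ (low O (l + 1) : Set (PS X))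

section
variable {A : Type} [CommRing A]

omit [Fintype D] in
theorem Lin.C (c : A) : Lin (C c : MvPowerSeries (Σ i, X i) A) := fun S hS ω => by
  rw [comp_C, if_neg]
  rintro rfl
  simp at hS

omit [Fintype D] in
theorem Lin.var (v : Σ i, X i) : Lin (MvPowerSeries.X v : MvPowerSeries (Σ i, X i) A) :=
  fun S hS ω => by
    rw [comp_X, if_neg]
    rintro ⟨rfl, -⟩
    simp at hS

omit [DecidableEq D] [Fintype D] [∀ i, DecidableEq (X i)]

theorem Lin.add {p q : MvPowerSeries (Σ i, X i) A} (hp : Lin p) (hq : Lin q) : Lin (p + q) :=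
  fun S hS ω => by rw [comp_add, hp S hS, hq S hS, add_zero]

theorem Lin.smul {p : MvPowerSeries (Σ i, X i) A} (hp : Lin p) (c : A) :
    Lin (MvPowerSeries.C c * p) := fun S hS ω => by rw [comp_C_mul, hp S hS, mul_zero]

theorem Lin.sum {α : Type} (s : Finset α) {p : α → MvPowerSeries (Σ i, X i) A}
    (hp : ∀ a ∈ s, Lin (p a)) : Lin (∑ a ∈ s, p a) := fun S hS ω => by
  rw [comp_sum]
  exact sum_eq_zero fun a ha => hp a ha S hS ω

theorem Lin.zero : Lin (0 : MvPowerSeries (Σ i, X i) A) := fun _ _ _ => map_zero _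

theorem Lin.neg {p : MvPowerSeries (Σ i, X i) A} (hp : Lin p) : Lin (-p) := by
  simpa using hp.smul (-1)

end

section
omit [DecidableEq D] [Fintype D] [∀ i, DecidableEq (X i)]

theorem mem_low {O : Finset (ℕ × PS X)} {a l : ℕ} {x : PS X} (h : (a, x) ∈ O) (hl : a ≤ l) :
    x ∈ low O l := by
  classical
  exact mem_image.2 ⟨(a, x), mem_filter.2 ⟨h, hl⟩, rfl⟩

theorem Cl.smul {O : Finset (ℕ × PS X)} {a : ℕ} {x : PS X} (h : Cl O a x) (c : ℂ) :
    Cl O a (C c * x) := by
  match a with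
  | 0 => obtain ⟨c', rfl⟩ := h; exact ⟨c * c', (map_mul _ _ _).symm⟩
  | 1 => exact Lin.smul h c
  | l + 2 =>
    simp only [Cl] at h ⊢
    split_ifs at h ⊢
    · exact h.smul c
    · rw [← smul_eq_C_mul]; exact Submodule.smul_mem _ _ h

theorem Cl.up_even {O : Finset (ℕ × PS X)} {a l : ℕ} {x : PS X} (h : Cl O a x) (hx : (a, x) ∈ O)
    (hl : l % 2 = 0) (ha : a ≤ l + 2) : Mon (low O (l + 1)) x := by
  rcases ha.eq_or_lt with rfl | ha
  · simpa [Cl, hl] using h
  · exact .of_mem (mem_low hx (by omega))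

theorem Cl.mul {O : Finset (ℕ × PS X)} {a b : ℕ} {x y : PS X} (ha : Cl O a x) (hb : Cl O b y)
    (hx : (a, x) ∈ O) (hy : (b, y) ∈ O) : Cl O (opLevel .mul a b) (x * y) := by
  simp only [opLevel]
  split_ifs with h
  · rcases h with rfl | rfl
    · obtain ⟨c, rfl⟩ := ha
      simpa using hb.smul c
    · obtain ⟨c, rfl⟩ := hb
      simpa [mul_comm] using ha.smul c
  · obtain ⟨l, hl⟩ : ∃ l, max a b + max a b % 2 = l + 2 := ⟨max a b + max a b % 2 - 2, by omega⟩
    have h2 : l % 2 = 0 := by omega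
    simp only [hl, Cl, h2, if_true]
    exact (ha.up_even hx h2 (by omega)).mul (hb.up_even hy h2 (by omega))

theorem Cl.div {O : Finset (ℕ × PS X)} {a b : ℕ} {x y : PS X} (ha : Cl O a x) (hb : Cl O b y)
    (hx : (a, x) ∈ O) (hy : (b, y) ∈ O) : Cl O (opLevel .div a b) (x * Ring.inverse y) := by
  simp only [opLevel]
  split_ifs with h
  · subst h
    obtain ⟨c, rfl⟩ := hb
    have : Ring.inverse (C c : PS X) = C c⁻¹ := by
      by_cases hc : c = 0
      · simp [hc]
      · exact (one_mul _).symm.trans ((Ring.eq_mul_inverse_iff_mul_eq _ _ _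
          (LogD.C (O := ∅) hc).1).2 (by rw [← map_mul, inv_mul_cancel₀ hc, map_one])).symm
    rw [this, mul_comm]
    exact ha.smul _
  · obtain ⟨l, hl⟩ : ∃ l, max a b + max a b % 2 = l + 2 := ⟨max a b + max a b % 2 - 2, by omega⟩
    have h2 : l % 2 = 0 := by omega
    simp only [hl, Cl, h2, if_true]
    exact (ha.up_even hx h2 (by omega)).mul (hb.up_even hy h2 (by omega)).inv

end

omit [Fintype D] in
theorem Cl.add {O : Finset (ℕ × PS X)} {a b : ℕ} {x y : PS X} (ha : Cl O a x) (hb : Cl O b y)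
    (hx : (a, x) ∈ O) (hy : (b, y) ∈ O) (c : ℂ) : Cl O (opLevel .add a b) (x + C c * y) := by
  simp only [opLevel]
  split_ifs with h
  · obtain rfl : a = 0 := by omega
    obtain rfl : b = 0 := by omega
    obtain ⟨_, rfl⟩ := ha
    obtain ⟨_, rfl⟩ := hb
    exact ⟨_, by rw [← map_mul, ← map_add]⟩
  · by_cases h1 : max a b = 1
    · have key : ∀ {a : ℕ} {x : PS X}, Cl O a x → a ≤ 1 → Lin x := fun {a x} ha h => by
        interval_cases a
        · obtain ⟨_, rfl⟩ := ha
          exact Lin.C _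
        · exact ha
      rw [h1]
      exact (key ha (by omega)).add ((key hb (by omega)).smul c)
    · obtain ⟨l, hl⟩ : ∃ l, max a b + (max a b + 1) % 2 = l + 2 :=
        ⟨max a b + (max a b + 1) % 2 - 2, by omega⟩
      have h2 : ¬ l % 2 = 0 := by omega
      have key : ∀ {a : ℕ} {x : PS X}, Cl O a x → (a, x) ∈ O → a ≤ l + 2 →
          x ∈ Submodule.span ℂ (low O (l + 1) : Set (PS X)) := fun {a x} ha hx h => by
        rcases h.eq_or_lt with rfl | h
        · simpa [Cl, h2] using ha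
        · exact Submodule.subset_span (mem_low hx (by omega))
      simp only [hl, Cl, h2, if_false]
      rw [← smul_eq_C_mul]
      exact add_mem (key ha hx (by omega)) (Submodule.smul_mem _ _ (key hb hy (by omega)))

/-- thresholds -/
def thr (φ : ℕ) : ℕ → ℕ
  | 0 => 2
  | l + 1 => φ * (φ * thr φ l ^ 2) ^ 2

theorem thr_le {φ : ℕ} (hφ : 0 < φ) (l : ℕ) : 2 ≤ thr φ l ∧ thr φ l ≤ thr φ (l + 1) := by
  have key : ∀ τ : ℕ, τ ≤ φ * (φ * τ ^ 2) ^ 2 := fun τ => by
    have h1 : ∀ τ : ℕ, τ ≤ φ * τ ^ 2 := fun τ =>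
      (Nat.le_self_pow two_ne_zero τ).trans (Nat.le_mul_of_pos_left _ hφ)
    exact (h1 τ).trans (h1 _)
  induction l with
  | zero => exact ⟨le_rfl, key _⟩
  | succ l ih => exact ⟨ih.1.trans ih.2, key _⟩

theorem good_cl {φ s : ℕ} {O : Finset (ℕ × PS X)} (hφ : 0 < φ) (hs : O.card ≤ s) (hs1 : 1 ≤ s)
    (hO : ∀ x ∈ O, Cl O x.1 x.2) (l : ℕ) : ∀ a ≤ l, ∀ r, Cl O a r →
      Good P (thr φ l) ((s * 2 ^ (2 * Fintype.card D ^ 2)) ^ l * exp (-P.κ * φ)) r := by
  classical
  have h1 : (1 : ℝ) ≤ 2 ^ (2 * Fintype.card D ^ 2) := one_le_pow₀ one_le_two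
  have h2 : (1 : ℝ) ≤ s := by exact_mod_cast hs1
  have h3 := one_le_mul_of_one_le_of_one_le h2 h1
  have lin : ∀ (l : ℕ) (r : PS X), Lin r →
      Good P (thr φ l) ((s * 2 ^ (2 * Fintype.card D ^ 2)) ^ l * exp (-P.κ * φ)) r :=
    fun l r hr S hS => (Rk.zero (mul_nonneg (by positivity) (rho_pos S).le)).congr
      (hr S ((thr_le hφ l).1.trans hS))
  induction l with
  | zero =>
    rintro a ha r hr
    obtain rfl : a = 0 := by omega
    obtain ⟨c, rfl⟩ := hr
    exact lin _ _ (Lin.C c)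
  | succ l ih =>
    intro a ha r hr
    rcases ha.eq_or_lt with rfl | ha
    · rcases l with _ | l
      · exact lin _ _ hr
      have h4 : ∀ h ∈ low O (l + 1), Good P (thr φ (l + 1))
          ((s * 2 ^ (2 * Fintype.card D ^ 2)) ^ (l + 1) * exp (-P.κ * φ)) h := fun h hh => by
        obtain ⟨x, hx, rfl⟩ := mem_image.1 hh
        exact ih _ (mem_filter.1 hx).2 _ (hO x (mem_filter.1 hx).1)
      have h5 : (low O (l + 1)).card ≤ s := card_image_le.trans ((card_filter_le _ _).trans hs)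
      simp only [Cl] at hr
      split_ifs at hr
      · exact (good_mon (by have := thr_le hφ (l + 1); omega) hφ
          (le_mul_of_one_le_left (exp_pos _).le (one_le_pow₀ h3)) h5 hs1 h4 hr).mono le_rfl
          (le_of_eq (by ring))
      · refine (good_span h4 hr).mono (thr_le hφ _).2 ?_
        rw [pow_succ' _ (l + 1), mul_assoc]
        gcongr
        exact (Nat.cast_le.2 h5).trans (le_mul_of_one_le_right (Nat.cast_nonneg _) h1)
    · refine (ih a (by omega) r hr).mono (thr_le hφ _).2 ?_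
      gcongr
      omega

end Pool.Agent.MP_57f271_lc.H27
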