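import Pool.Agent.MP_57f271_lc.H27.Par
import Pool.Agent.MP_57f271_lc.H27.Sim
import Pool.Agent.MP_57f271_lc.H27.Gen

namespace Pool.Agent.MP_57f271_lc.H27

open Pool.Agent.MP_57f271_lc.H18 Finset

section Sys

open MvPolynomial

variable {cs : Set ℂ} {n : ℕ} {V : Type} [CommRing V]
  (G : Gen cs (Fin (n + 1) × Fin n ⊕ Fin n) V)

/-- constant terms of the generic linear system -/
noncomputable def bb (i : Fin (n + 1)) : V :=
  ∑ j, G.y (.inl (i, j)) * G.y (.inr j) + if i = 0 then G.η else 0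

/-- the generic linear system -/
noncomputable def FF (i : Fin (n + 1)) : MvPolynomial (Fin n) V :=
  ∑ j, C (G.y (.inl (i, j))) * X j + C (bb G i)

/-- its specialisations -/
noncomputable def sys (φ : V →+* ℂ) : System := ⟨n, n + 1, fun i => map φ (FF G i)⟩

/-- the initial state over the parameter ring -/
noncomputable def x0 (E : Encoding) : ℤ → V :=
  Function.extend (E.pos n (n + 1) fun _ => 1) (fun s => coeff s.2.1 (FF G s.1))
    fun j => (E.rest n (n + 1) (fun _ => 1) j : V)

theorem sys_deg (hn : 0 < n) (φ : V →+* ℂ) (h : ∀ x, φ (G.y x) ≠ 0) :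
    (sys G φ).deg = fun _ => 1 := by
  funext i
  refine le_antisymm ?_ ?_
  · simp only [System.deg, sys, FF, map_add, map_sum, map_mul, map_C, map_X]
    refine (totalDegree_add _ _).trans (max_le (totalDegree_finsetSum_le fun j _ =>
      (totalDegree_mul _ _).trans ?_) ?_) <;> simp
  · have : Finsupp.single (⟨0, hn⟩ : Fin n) 1 ∈ (map φ (FF G i)).support := by
      rw [mem_support_iff, coeff_map]
      simpa [FF, coeff_sum, coeff_C_mul, coeff_X, coeff_C, Finsupp.single_left_inj,
        (Finsupp.single_ne_zero.2 one_ne_zero).symm] using h _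
    have h2 := le_totalDegree this
    rwa [Finsupp.sum_single_index rfl] at h2

theorem sys_state (hn : 0 < n) (φ : V →+* ℂ) (h : ∀ x, φ (G.y x) ≠ 0) (E : Encoding) :
    E.state (sys G φ) = φ ∘ x0 G E := by
  have key : ∀ d : Fin (n + 1) → ℕ, d = (fun _ => 1) →
      Function.extend (E.pos n (n + 1) d) (fun s => coeff s.2.1 (map φ (FF G s.1)))
        (fun j => (E.rest n (n + 1) d j : ℂ)) = φ ∘ x0 G E := by
    rintro _ rfl
    funext j
    by_cases hj : ∃ s, E.pos n (n + 1) (fun _ => 1) s = j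
    · obtain ⟨s, rfl⟩ := hj
      simp only [x0, Function.comp_apply, (E.inj _ _ _).extend_apply, coeff_map]
    · simp only [x0, Function.comp_apply, Function.extend_apply' _ _ _ hj, map_natCast]
  exact key _ (sys_deg G hn φ h)

theorem sys_level (hn : 0 < n) (φ : V →+* ℂ) (h : ∀ x, φ (G.y x) ≠ 0) (M : Machine)
    (E : Encoding) : level M E (sys G φ) 0 =
      Function.extend (E.pos n (n + 1) fun _ => 1) (fun _ => 1) fun _ => 0 := by
  have key : ∀ d : Fin (n + 1) → ℕ, d = (fun _ => 1) →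
      Function.extend (E.pos n (n + 1) d) (fun _ => 1) (fun _ => 0) =
      Function.extend (E.pos n (n + 1) fun _ => 1) (fun _ => 1) fun _ => 0 := by
    rintro _ rfl
    rfl
  exact key _ (sys_deg G hn φ h)

theorem sys_size (hn : 0 < n) (φ : V →+* ℂ) (h : ∀ x, φ (G.y x) ≠ 0) :
    (sys G φ).size = Nat.card (Slot n (n + 1) fun _ => 1) := by
  rw [System.size, sys_deg G hn φ h]
  rfl

theorem card_slot (n : ℕ) : n + 1 ≤ Nat.card (Slot n (n + 1) fun _ => 1) ∧
    Nat.card (Slot n (n + 1) fun _ => 1) ≤ (n + 1) ^ 2 := by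
  let f : Fin (n + 1) × Option (Fin n) → Slot n (n + 1) fun _ => 1 := fun x =>
    ⟨x.1, x.2.elim 0 fun j => Finsupp.single j 1, by cases x.2 <;> simp⟩
  have hf : Function.Surjective f := by
    rintro ⟨i, e, he⟩
    rcases Nat.le_one_iff_eq_zero_or_eq_one.1 he with h | h
    · obtain rfl := (Finsupp.degree_eq_zero_iff e).1 h
      exact ⟨(i, none), rfl⟩
    · obtain ⟨j, rfl⟩ := Finsupp.range_single_one.ge h
      exact ⟨(i, some j), rfl⟩
  have := Finite.of_surjective f hf
  refine ⟨?_, (Nat.card_le_card_of_surjective f hf).trans (by simp [sq])⟩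
  exact (Nat.card_fin _).ge.trans (Nat.card_le_card_of_surjective
    (fun s : Slot n (n + 1) (fun _ => 1) => s.1) fun i => ⟨f (i, none), rfl⟩)

theorem y2_ne (x) : G.φ2 (G.y x) ≠ 0 := G.indep.ne_zero x

theorem y1_ne (x) : G.φ1 (G.y x) ≠ 0 :=
  (map_ne_zero_iff _ G.inj).2 fun h => y2_ne G x (by rw [h, map_zero])

theorem sys_feas (φ : V →+* ℂ) : (sys G φ).Feasible ↔ ∃ z : Fin n → ℂ, ∀ i,
    ∑ j, φ (G.y (.inl (i, j))) * (z j + φ (G.y (.inr j))) + φ (if i = 0 then G.η else 0) = 0 := by
  refine exists_congr fun (z : Fin n → ℂ) => forall_congr' fun (i : Fin (n + 1)) =>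
    Eq.congr_left ?_
  change eval z (map φ (FF G i)) = _
  simp only [FF, bb, map_add, map_sum, map_mul, map_C, map_X, eval_C, eval_X, mul_add,
    sum_add_distrib, add_assoc]

theorem feas2 : (sys G G.φ2).Feasible :=
  (sys_feas G _).2 ⟨fun j => -G.φ2 (G.y (.inr j)), fun i => by simp [apply_ite G.φ2, G.η2]⟩

theorem infeas1 : ¬ (sys G G.φ1).Feasible := by
  rw [sys_feas]
  rintro ⟨z, h3⟩
  let B : Matrix (Fin n) (Fin n) V := Matrix.of fun i j => G.y (.inl (i.succ, j))
  have h1 : G.φ2 B.det ≠ 0 := by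
    have h2 := G.indep.comp (fun x : Fin n × Fin n => Sum.inl (x.1.succ, x.2))
      fun x y h => by simpa [Prod.ext_iff] using h
    have h4 := (map_ne_zero_iff _ h2).2 (Matrix.det_mvPolynomialX_ne_zero (Fin n) ℤ)
    rw [AlgHom.map_det] at h4
    rw [RingHom.map_det]
    exact fun h => h4 ((congrArg Matrix.det (Matrix.mvPolynomialX_mapMatrix_aeval ℤ
      (G.φ2.mapMatrix B))).trans h)
  have h2 : (G.φ1.mapMatrix B).det ≠ 0 := by
    rw [← RingHom.map_det]
    exact (map_ne_zero_iff _ G.inj).2 fun h => h1 (by rw [h, map_zero])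
  have h4 := Matrix.eq_zero_of_mulVec_eq_zero h2 (v := fun j => z j + G.φ1 (G.y (.inr j)))
    (funext fun i => by simpa [Matrix.mulVec, dotProduct, B, Fin.succ_ne_zero] using h3 i.succ)
  have h5 := h3 0
  simp only [show ∀ j, z j + G.φ1 (G.y (.inr j)) = 0 from congrFun h4] at h5
  exact G.η1 (by simpa using h5)

end Sys

section Def

open MvPowerSeries

variable {D : Type} [DecidableEq D] [Fintype D] {X : D → Type} [∀ i, DecidableEq (X i)]
  {pos : D → Prop} [DecidablePred pos] {V : Type} [CommRing V]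

/-- change of the node set -/
def ABP.reindex {ν ν' σ : Type} [Fintype ν] [Fintype ν'] (T : ABP X pos V ν σ) (e : ν' ≃ ν) :
    ABP X pos V ν' σ where
  N x y := T.N (e x) (e y)
  u x := T.u (e x)
  w x := T.w (e x)
  cg := T.cg
  r := T.r
  linN _ _ := T.linN _ _
  linu _ := T.linu _
  linv x := by
    rw [e.sum_comp fun y => T.N (e x) y * T.w y]
    exact T.linv _
  N0 _ _ := T.N0 _ _
  u0 _ := T.u0 _
  w0 _ := T.w0 _
  comp_g := by
    rw [e.sum_comp fun y => T.u y * T.w y]
    exact T.comp_g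
  diag := T.diag

theorem comp_pow {ν σ : Type} [Fintype ν] (T : ABP X pos V ν σ) (η : V)
    (p : MvPowerSeries (Σ i, X i) V) (ω : ∀ i, X i) (e : ℕ) :
    comp univ ((C η - ∑ x, T.u x * T.w x) ^ (e + 1) * p) ω =
      η ^ e * (η * comp univ p ω - (e + 1) * T.cg ω * constantCoeff p) := by
  have h0 : constantCoeff (∑ x, T.u x * T.w x) = 0 := by simp [T.w0]
  have key : ∀ q, comp univ ((C η - ∑ x, T.u x * T.w x) * q) ω =
      η * comp univ q ω - T.cg ω * constantCoeff q := fun q => by
    rw [sub_mul, comp, map_sub]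
    change comp univ _ ω - comp univ _ ω = _
    rw [comp_C_mul, comp_mul]
    simp [T.comp_g, card_eq_iff_eq_univ, comp_empty]
  induction e with
  | zero => simpa using key p
  | succ e ih =>
    rw [pow_succ', mul_assoc, key, ih, map_mul, map_pow, map_sub, h0, constantCoeff_C]
    push_cast
    ring

variable {cs : Set ℂ} {n : ℕ} (G : Gen cs (Fin (n + 1) × Fin n ⊕ Fin n) V)

theorem exists_theta {σ : Type} [Fintype σ] [DecidableEq σ] (T : ABP X pos V (Fin n) σ) :
    ∃ Θ : V →+* PS X, (∀ c, ∃ c', Θ (G.κ c) = C c') ∧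
      (∀ i e, Lin (Θ (MvPolynomial.coeff e (FF G i)))) ∧ ∀ x, x ≠ 0 → ¬ IsUnit x → ∀ b,
        Rk pos b (comp univ (Θ x)) → (Fintype.card σ : ℝ) ≤ b := by
  classical
  let δ : Fin (n + 1) → Fin n → MvPowerSeries (Σ i, X i) V := fun i j =>
    C (G.y (.inl (i, j))) - ∑ l, C (G.y (.inl (i, l))) * T.N l j + if i = 0 then T.u j else 0
  obtain ⟨θ, h1, h2, h3, h4⟩ := G.deform _ (Sum.elim (fun x => δ x.1 x.2)
    fun j => C (G.y (.inr j)) + T.w j) (C G.η - ∑ x, T.u x * T.w x)
    (by rintro (⟨i, j⟩ | j) <;> simp [δ, T.N0, T.w0, apply_ite constantCoeff, T.u0])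
    (by simp [T.w0])
  have hδ : ∀ i j, Lin (δ i j) := fun i j => by
    simp only [δ, sub_eq_add_neg]
    refine ((Lin.C _).add (Lin.sum _ fun l _ => (T.linN l j).smul _).neg).add ?_
    split_ifs
    exacts [T.linu j, Lin.zero]
  have hb : ∀ i, Lin (θ (bb G i)) := fun i => by
    have e : θ (bb G i) = ∑ j, C (G.y (.inr j)) * δ i j +
        ∑ l, C (G.y (.inl (i, l))) * (T.w l - ∑ j, T.N l j * T.w j) +
        C (if i = 0 then G.η else 0) := by
      have e1 : ∑ l, C (G.y (.inl (i, l))) * ∑ j, T.N l j * T.w j =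
          ∑ j, (∑ l, C (G.y (.inl (i, l))) * T.N l j) * T.w j := by
        simp only [mul_sum, sum_mul, mul_assoc]
        exact sum_comm
      simp only [bb, map_add, map_sum, map_mul, h2, Sum.elim_inl, Sum.elim_inr, mul_add (δ _ _),
        sum_add_distrib, mul_comm (δ _ _) (C _), mul_sub, sum_sub_distrib, e1]
      simp only [δ, add_mul, sub_mul, sum_add_distrib, sum_sub_distrib]
      split_ifs
      · rw [h3]
        ring
      · simp
    rw [e]
    exact ((Lin.sum _ fun j _ => (hδ i j).smul _).add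
      (Lin.sum _ fun l _ => (T.linv l).smul _)).add (Lin.C _)
  refine ⟨(MvPowerSeries.map G.φ1).comp θ, fun c => ⟨_, by rw [RingHom.comp_apply, h1, map_C]⟩,
    fun i e S hS ω => ?_, fun x hx0 hx b hb => ?_⟩
  · have : Lin (θ (MvPolynomial.coeff e (FF G i))) := by
      simp only [FF, MvPolynomial.coeff_add, MvPolynomial.coeff_sum, MvPolynomial.coeff_C_mul,
        MvPolynomial.coeff_X, MvPolynomial.coeff_C, map_add, map_sum, mul_ite, mul_one, mul_zero,
        apply_ite θ, map_zero, h2, Sum.elim_inl]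
      refine (Lin.sum _ fun j _ => ?_).add ?_ <;> split_ifs
      exacts [hδ i j, Lin.zero, hb i, Lin.zero]
    rw [comp, RingHom.comp_apply, coeff_map]
    exact (congrArg G.φ1 (this S hS ω)).trans (map_zero _)
  · obtain ⟨e, u, hu, rfl⟩ := G.fac x hx0 hx
    refine hb.lower T.r ?_
    let B : Matrix σ σ V := Matrix.of fun s t => G.η * comp univ (θ u)
      (fun i => if pos i then T.r s i else T.r t i) -
        (e + 1) * T.cg (fun i => if pos i then T.r s i else T.r t i) * u
    have h5 : G.φ2 B.det ≠ 0 := by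
      rw [RingHom.map_det, show G.φ2.mapMatrix B = Matrix.diagonal fun s => G.φ2 (B s s) from
        Matrix.ext fun s t => by
          by_cases h : s = t
          · simp [h]
          · simp [h, B, G.η2, not_not.1 ((T.diag s t).not.2 h)], Matrix.det_diagonal]
      refine prod_ne_zero_iff.2 fun s _ => ?_
      simpa [B, G.η2, (hu.map G.φ2).ne_zero, Nat.cast_add_one_ne_zero] using (T.diag s s).2 rfl
    have h6 : (Matrix.of fun s t => comp univ ((MvPowerSeries.map G.φ1).comp θ (G.η ^ (e + 1) * u))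
        fun i => if pos i then T.r s i else T.r t i) = G.φ1.mapMatrix (G.η ^ e • B) := by
      ext s t
      rw [Matrix.of_apply, comp, RingHom.comp_apply, coeff_map, map_mul, map_pow, h3]
      exact congrArg G.φ1 ((comp_pow T _ _ _ e).trans (by rw [h4]; rfl))
    rw [h6, ← RingHom.map_det, Matrix.det_smul, map_mul, map_pow, map_pow]
    exact mul_ne_zero (pow_ne_zero _ (pow_ne_zero _ G.η1))
      ((map_ne_zero_iff _ G.inj).2 fun h => h5 (by rw [h, map_zero]))

end Def

end Pool.Agent.MP_57f271_lc.H27
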