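import Pool.Agent.MP_57f271_lc.H27.Step

namespace Pool.Agent.MP_57f271_lc.H27

open Finset MvPowerSeries Real

variable (a k : ℕ)

/-- lengths of the positive and the negative word after `i` blocks -/
def pq : ℕ → ℕ × ℕ
  | 0 => (0, 0)
  | i + 1 => if (pq i).1 ≤ (pq i).2 then ((pq i).1 + a, (pq i).2) else ((pq i).1, (pq i).2 + k)

/-- block `i` is positive -/
abbrev ps (i : ℕ) : Prop := (pq a k i).1 ≤ (pq a k i).2

/-- first position read by block `i` -/
def lo (i : ℕ) : ℕ := min (pq a k i).1 (pq a k i).2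

/-- length of block `i` -/
def len (i : ℕ) : ℕ := if ps a k i then a else k

theorem lo_mono (i : ℕ) : lo a k i ≤ lo a k (i + 1) := by
  simp only [lo, pq]
  split_ifs <;> simp only <;> omega

theorem lo_le {i j : ℕ} (h : i ≤ j) : lo a k i ≤ lo a k j :=
  monotone_nat_of_le_succ (lo_mono a k) h

theorem cover (n z : ℕ) :
    (z < (pq a k n).1 → ∃ i < n, ps a k i ∧ lo a k i ≤ z ∧ z < lo a k i + len a k i) ∧
    (z < (pq a k n).2 → ∃ i < n, ¬ ps a k i ∧ lo a k i ≤ z ∧ z < lo a k i + len a k i) := by
  induction n with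
  | zero => simp [pq]
  | succ n ih =>
    have e : ∀ {Q : ℕ → Prop}, (∃ i < n, Q i) → ∃ i < n + 1, Q i :=
      fun ⟨i, h1, h2⟩ => ⟨i, by omega, h2⟩
    simp only [pq]
    split_ifs with h
    · refine ⟨fun h1 => ?_, fun h1 => e (ih.2 h1)⟩
      by_cases h2 : z < (pq a k n).1
      · exact e (ih.1 h2)
      · refine ⟨n, by omega, h, ?_⟩
        simp only [lo, len, ps, if_pos h] at h1 ⊢
        omega
    · refine ⟨fun h1 => e (ih.1 h1), fun h1 => ?_⟩
      by_cases h2 : z < (pq a k n).2
      · exact e (ih.2 h2)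
      · refine ⟨n, by omega, h, ?_⟩
        simp only [lo, len, ps, if_neg h] at h1 ⊢
        omega

theorem sum_len (hk : k ≤ a) (n : ℕ) : ∑ i ∈ range n, len a k i = (pq a k n).1 + (pq a k n).2 ∧
    (pq a k n).1 ≤ (pq a k n).2 + a ∧ (pq a k n).2 ≤ (pq a k n).1 + a := by
  induction n with
  | zero => simp [pq]
  | succ n ih =>
    rw [sum_range_succ, ih.1]
    simp only [pq, len, ps]
    split_ifs <;> simp only <;> omega

variable (d : ℕ)

/-- the variables of block `i` -/
abbrev BX (i : Fin d) : Type := Fin (len a k i) → Bool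

/-- the letter read from a state -/
def rs (i : Fin d) (s : Fin a → Bool) : BX a k d i :=
  fun j => if h : j.1 < a then s ⟨j, h⟩ else false

/-- consistent consecutive states -/
def cons (i : ℕ) (s s' : Fin a → Bool) : Prop :=
  ∀ j j' : Fin a, lo a k i + j = lo a k (i + 1) + j' → s j = s' j'

instance (i : ℕ) (s s' : Fin a → Bool) : Decidable (cons a k i s s') := by
  unfold cons; infer_instance

/-- restriction of a global word to the blocks -/
def res (σ : ℕ → Bool) (i : Fin d) : BX a k d i := fun j => σ (lo a k i + j)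

variable (A : Type) [CommRing A]

/-- edge labels -/
noncomputable def xv (i : ℕ) (s : Fin a → Bool) : MvPowerSeries (Σ i, BX a k d i) A :=
  if h : i < d then MvPowerSeries.X ⟨⟨i, h⟩, rs a k d ⟨i, h⟩ s⟩ else 0

/-- values of the nodes of the branching program -/
noncomputable def wv : ℕ → ℕ → (Fin a → Bool) → MvPowerSeries (Σ i, BX a k d i) A
  | 0, _, _ => 1
  | n + 1, i, s => xv a k d A i s * ∑ s', if cons a k i s s' then wv n (i + 1) s' else 0

/-- number of paths -/
def cnt (ω : ∀ i, BX a k d i) : ℕ → ℕ → (Fin a → Bool) → ℕ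
  | 0, _, _ => 1
  | n + 1, i, s => if h : i < d then if ω ⟨i, h⟩ = rs a k d ⟨i, h⟩ s then
      ∑ s', if cons a k i s s' then cnt ω n (i + 1) s' else 0 else 0 else 0

theorem comp_wv (ω : ∀ i, BX a k d i) (n : ℕ) : ∀ (i : ℕ) (s : Fin a → Bool) (S : Finset (Fin d)),
    i + n ≤ d → comp S (wv a k d A n i s) ω =
      if S = univ.filter (fun j => i ≤ j.1 ∧ j.1 < i + n) then (cnt a k d ω n i s : A) else 0 := by
  induction n with
  | zero =>
    intro i s S _
    rw [wv, ← map_one (MvPowerSeries.C (σ := Σ i, BX a k d i) (R := A)), comp_C,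
      filter_false_of_mem fun j _ => by omega]
    simp [cnt]
  | succ n ih =>
    intro i s S hi
    have h : i < d := by omega
    have key : (⟨i, h⟩ ∈ S ∧ S.erase ⟨i, h⟩ = univ.filter fun j => i + 1 ≤ j.1 ∧ j.1 < i + 1 + n) ↔
        S = univ.filter fun j => i ≤ j.1 ∧ j.1 < i + (n + 1) := by
      constructor
      · rintro ⟨h1, h2⟩
        rw [← insert_erase h1, h2]
        ext j
        simp only [mem_insert, mem_filter, mem_univ, true_and, Fin.ext_iff]
        omega
      · rintro rfl
        refine ⟨by simp, ?_⟩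
        ext j
        simp only [mem_erase, mem_filter, mem_univ, true_and, ne_eq, Fin.ext_iff]
        omega
    have e : ∀ s', comp (S.erase ⟨i, h⟩) (if cons a k i s s' then wv a k d A n (i + 1) s' else 0) ω =
        if S.erase ⟨i, h⟩ = univ.filter (fun j => i + 1 ≤ j.1 ∧ j.1 < i + 1 + n) then
          ((if cons a k i s s' then cnt a k d ω n (i + 1) s' else 0 : ℕ) : A) else 0 := fun s' => by
      by_cases h1 : cons a k i s s'
      · simp only [h1, if_true]
        exact ih _ _ _ (by omega)
      · simp [h1, comp]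
    rw [wv, xv, dif_pos h, comp_X_mul, comp_sum, sum_congr rfl fun s' _ => e s', cnt, dif_pos h,
      ← if_congr key rfl rfl]
    by_cases h1 : ⟨i, h⟩ ∈ S <;> by_cases h2 : ω ⟨i, h⟩ = rs a k d ⟨i, h⟩ s <;>
      by_cases h3 : S.erase ⟨i, h⟩ = univ.filter (fun j => i + 1 ≤ j.1 ∧ j.1 < i + 1 + n) <;>
      simp [h1, h2, h3]

theorem len_le (hk : k ≤ a) (i : ℕ) : len a k i ≤ a := by
  unfold len
  split_ifs <;> omega

theorem cnt_ne (hk : k ≤ a) (σ : ℕ → Bool) (n : ℕ) : ∀ i, i + n ≤ d →
    cnt a k d (res a k d σ) n i (fun j => σ (lo a k i + j)) ≠ 0 := by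
  induction n with
  | zero => intro i _; simp [cnt]
  | succ n ih =>
    intro i hi
    have h : i < d := by omega
    rw [cnt, dif_pos h, if_pos (funext fun j => by
      rw [rs, dif_pos (j.2.trans_le (len_le a k hk i))]; rfl)]
    intro h0
    have := sum_eq_zero_iff.1 h0 (fun j => σ (lo a k (i + 1) + j)) (mem_univ _)
    rw [if_pos (show cons a k i _ _ from fun j j' hj => congrArg σ hj)] at this
    exact ih _ (by omega) this

theorem cnt_glue (hk : k ≤ a) (ω : ∀ i, BX a k d i) (n : ℕ) : ∀ i s, cnt a k d ω n i s ≠ 0 →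
    ∃ σ : ℕ → Bool, (∀ j : Fin a, s j = σ (lo a k i + j)) ∧
      ∀ j : Fin d, i ≤ j.1 → j.1 < i + n → ω j = res a k d σ j := by
  induction n with
  | zero =>
    intro i s _
    refine ⟨fun z => if h : z - lo a k i < a then s ⟨_, h⟩ else false, fun j => ?_,
      fun j _ _ => by omega⟩
    simp
  | succ n ih =>
    intro i s h0
    rw [cnt] at h0
    split_ifs at h0 with h h1
    · obtain ⟨s', -, h2⟩ := exists_ne_zero_of_sum_ne_zero h0
      have h3 : cons a k i s s' := by
        by_contra h3
        exact h2 (if_neg h3)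
      rw [if_pos h3] at h2
      obtain ⟨σ, h4, h5⟩ := ih _ _ h2
      have h6 := lo_mono a k i
      have h7 : ∀ j : Fin a, s j = (fun z => if z < lo a k (i + 1) then
          (if h : z - lo a k i < a then s ⟨_, h⟩ else false) else σ z) (lo a k i + j) := fun j => by
        simp only [add_tsub_cancel_left, Fin.is_lt, dif_pos, Fin.eta]
        split_ifs with h8
        · rfl
        · have h9 := j.2
          rw [h3 j ⟨lo a k i + j - lo a k (i + 1), by omega⟩ (by simp only; omega), h4]
          congr 1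
          simp only
          omega
      refine ⟨fun z => if z < lo a k (i + 1) then
          (if h : z - lo a k i < a then s ⟨_, h⟩ else false) else σ z, h7, fun j h8 h9 => ?_⟩
      rcases h8.eq_or_lt with h8 | h8
      · obtain rfl : j = ⟨i, h⟩ := Fin.ext h8.symm
        rw [h1]
        funext j
        rw [rs, dif_pos (j.2.trans_le (len_le a k hk i)), h7]
        rfl
      · rw [h5 j h8 (by omega)]
        funext j'
        have := lo_le a k (show i + 1 ≤ j from h8)
        simp only [res]
        rw [if_neg (by omega)]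
    · exact absurd rfl h0
    · exact absurd rfl h0

/-- a branching program whose value is a set-multilinear polynomial of full rank -/
structure ABP {D : Type} [Fintype D] (X : D → Type) (pos : D → Prop) [DecidablePred pos]
    (A : Type) [CommRing A] (ν σ : Type) [Fintype ν] where
  N : ν → ν → MvPowerSeries (Σ i, X i) A
  u : ν → MvPowerSeries (Σ i, X i) A
  w : ν → MvPowerSeries (Σ i, X i) A
  cg : (∀ i, X i) → ℕ
  r : σ → ∀ i, X i
  linN : ∀ x y, Lin (N x y)
  linu : ∀ x, Lin (u x)
  linv : ∀ x, Lin (w x - ∑ y, N x y * w y)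
  N0 : ∀ x y, constantCoeff (N x y) = 0
  u0 : ∀ x, constantCoeff (u x) = 0
  w0 : ∀ x, constantCoeff (w x) = 0
  comp_g : ∀ S ω, comp S (∑ x, u x * w x) ω = if S.card = Fintype.card D then (cg ω : A) else 0
  diag : ∀ s t, cg (fun i => if pos i then r s i else r t i) ≠ 0 ↔ s = t

theorem exists_abp (hk : k ≤ a) (hd : 2 ≤ d) : Nonempty (ABP (BX a k d) (fun i => ps a k i) A
    (Fin d × (Fin a → Bool)) (Fin (lo a k d) → Bool)) := by
  let N : Fin d × (Fin a → Bool) → Fin d × (Fin a → Bool) → MvPowerSeries (Σ i, BX a k d i) A :=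
    fun x y => if y.1.1 = x.1.1 + 1 then if cons a k x.1 x.2 y.2 then xv a k d A x.1 x.2 else 0 else 0
  let w : Fin d × (Fin a → Bool) → MvPowerSeries (Σ i, BX a k d i) A :=
    fun x => wv a k d A (d - x.1) x.1 x.2
  have hx : ∀ (i : Fin d) s, Lin (xv a k d A i s) ∧ constantCoeff (xv a k d A i s) = 0 :=
    fun i s => by
      rw [xv, dif_pos i.2]
      exact ⟨Lin.var _, constantCoeff_X _⟩
  have hN : ∀ x y, Lin (N x y) ∧ constantCoeff (N x y) = 0 := fun x y => by
    simp only [N]
    split_ifs
    · exact hx _ _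
    · exact ⟨Lin.zero, map_zero _⟩
    · exact ⟨Lin.zero, map_zero _⟩
  have hw : ∀ x, x.1.1 + 1 < d → ∑ y, N x y * w y = w x := fun x h => by
    have e : d - x.1.1 = d - (x.1.1 + 1) + 1 := by omega
    simp only [w]
    rw [e, wv, Fintype.sum_prod_type, sum_eq_single ⟨x.1.1 + 1, h⟩, mul_sum]
    · exact sum_congr rfl fun s _ => by simp [N]
    · intro j _ hj
      exact sum_eq_zero fun s _ => by simp [N, show j.1 ≠ x.1.1 + 1 from fun h => hj (Fin.ext h)]
    · simp
  let o : Fin d := ⟨0, by omega⟩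
  let ex : (Fin (lo a k d) → Bool) → ℕ → Bool := fun s z => if h : z < lo a k d then s ⟨z, h⟩ else false
  refine ⟨⟨N, fun y => ∑ s, N (o, s) y, w, fun ω => ∑ s, cnt a k d ω d 0 s,
    fun s => res a k d (ex s), fun x y => (hN x y).1, fun y => Lin.sum _ fun s _ => (hN _ _).1,
    fun x => ?_, fun x y => (hN x y).2, fun y => ?_, fun x => ?_, fun S ω => ?_, fun s t => ?_⟩⟩
  · by_cases h : x.1.1 + 1 < d
    · rw [hw x h, sub_self]
      exact Lin.zero
    · have h1 := x.1.2
      rw [sum_eq_zero fun y _ => by simp [N, show y.1.1 ≠ x.1.1 + 1 by have := y.1.2; omega],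
        sub_zero]
      intro S hS ω
      rw [comp_wv _ _ _ _ _ _ _ _ _ (by omega), if_neg]
      rintro rfl
      have : (univ.filter fun j : Fin d => x.1.1 ≤ j.1 ∧ j.1 < x.1.1 + (d - x.1.1)) ⊆ {x.1} :=
        fun j hj => by
          have := (mem_filter.1 hj).2
          exact mem_singleton.2 (Fin.ext (by omega))
      have := card_le_card this
      rw [card_singleton] at this
      omega
  · rw [map_sum]
    exact sum_eq_zero fun s _ => (hN _ _).2
  · have e : d - x.1.1 = d - (x.1.1 + 1) + 1 := by have := x.1.2; omega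
    simp only [w]
    rw [e, wv, map_mul, (hx _ _).2, zero_mul]
  · simp only [sum_mul]
    rw [sum_comm, sum_congr rfl fun s _ => hw (o, s) (show 0 + 1 < d by omega), comp_sum,
      sum_congr rfl fun s _ => comp_wv a k d A ω _ _ _ S (show 0 + (d - 0) ≤ d by omega),
      filter_true_of_mem fun j _ => ⟨Nat.zero_le _, by simp⟩]
    simp only [card_eq_iff_eq_univ]
    split_ifs <;> simp
  · constructor
    · intro h
      obtain ⟨s0, -, h1⟩ := exists_ne_zero_of_sum_ne_zero h
      obtain ⟨σ, -, h2⟩ := cnt_glue a k d hk _ _ _ _ h1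
      funext z
      obtain ⟨i, hi, h3, h4, h5⟩ := (cover a k d z).1 (z.2.trans_le (min_le_left _ _))
      obtain ⟨j, hj, h6, h7, h8⟩ := (cover a k d z).2 (z.2.trans_le (min_le_right _ _))
      have e1 := congrFun (h2 ⟨i, hi⟩ (Nat.zero_le _) (by simpa using hi))
        ⟨z - lo a k i, by simp only; omega⟩
      have e2 := congrFun (h2 ⟨j, hj⟩ (Nat.zero_le _) (by simpa using hj))
        ⟨z - lo a k j, by simp only; omega⟩
      simp only [h3, h6, if_true, if_false, res, Nat.add_sub_cancel' h4, Nat.add_sub_cancel' h7, ex,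
        z.2, dif_pos, Fin.eta] at e1 e2
      exact e1.trans e2.symm
    · rintro rfl h
      simp only [ite_self] at h
      exact cnt_ne a k d hk (ex s) d 0 (by omega) (sum_eq_zero_iff.1 h _ (mem_univ _))

end Pool.Agent.MP_57f271_lc.H27
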